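import Pool.Agent.Lib.MP_e28b35_co.Game

/-!
Bit mask lemmas used by the soundness proofs.
-/

set_option autoImplicit false

namespace Pool.Agent.Lib.MP_e28b35_co

def BT.All {α : Type} (p : α → Prop) : BT α → Prop
  | .lf a => p a
  | .nd l r => l.All p ∧ r.All p

theorem brec {α : Type} {p : α → Prop} {b : Bool} {x y : α} (h0 : b = false → p x)
    (h1 : b = true → p y) : p (@Bool.rec (fun _ => α) x y b) := by
  cases b
  · exact h0 rfl
  · exact h1 rfl

theorem nrec {α : Type} {p : α → Prop} {n : ℕ} {z : α} {f : ℕ → α} (h0 : n = 0 → p z)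
    (h1 : ∀ m, n = m + 1 → p (f m)) : p (@Nat.rec (fun _ => α) z (fun m _ => f m) n) := by
  cases n
  · exact h0 rfl
  · exact h1 _ rfl

theorem BT.All.get {α : Type} {p : α → Prop} {t : BT α} (h : t.All p) (i : ℕ) : p (t.get i) := by
  induction t generalizing i with
  | lf a => exact h
  | nd l r a b => exact brec (fun _ => b h.2 _) fun _ => a h.1 _

theorem BT.All.nd {α : Type} {p : α → Prop} {l r : BT α} (a : l.All p) (b : r.All p) :
    (BT.nd l r).All p := ⟨a, b⟩

theorem lor_z {a b : ℕ} (h : Nat.lor a b = 0) : a = 0 ∧ b = 0 := Nat.or_eq_zero_iff.1 h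

theorem BT.All.of_err {α : Type} {p q : α → Prop} {f : α → ℕ} (h : ∀ a, q a → f a = 0 → p a)
    {t : BT α} (hq : t.All q) (ht : t.err f = 0) : t.All p := by
  induction t with
  | lf a => exact h a hq ht
  | nd l r a b => exact ⟨a hq.1 (lor_z ht).1, b hq.2 (lor_z ht).2⟩

theorem BT.All.triv {α : Type} (t : BT α) : t.All fun _ => True := by
  induction t with
  | lf a => trivial
  | nd l r a b => exact ⟨a, b⟩

theorem smN_z {f : ℕ → ℕ} {n : ℕ} (h : smN f n = 0) : ∀ i, i < n → f i = 0 := by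
  induction n with
  | zero => simp
  | succ n ih =>
    intro i hi
    rcases Nat.lt_succ_iff_lt_or_eq.1 hi with k | rfl
    · exact ih (lor_z h).2 i k
    · exact (lor_z h).1

theorem smL_z {α : Type} {f : α → ℕ} {l : List α} (h : smL f l = 0) : ∀ a ∈ l, f a = 0 := by
  induction l with
  | nil => simp
  | cons a l ih => exact List.forall_mem_cons.2 ⟨(lor_z h).1, ih (lor_z h).2⟩

@[simp] theorem tb_land (a b i : ℕ) : (Nat.land a b).testBit i = (a.testBit i && b.testBit i) :=
  Nat.testBit_and a b i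

@[simp] theorem tb_lor (a b i : ℕ) : (Nat.lor a b).testBit i = (a.testBit i || b.testBit i) :=
  Nat.testBit_or a b i

@[simp] theorem tb_xor (a b i : ℕ) : (Nat.xor a b).testBit i = (a.testBit i ^^ b.testBit i) :=
  Nat.testBit_xor a b i

@[simp] theorem tb_shr (a n i : ℕ) : (Nat.shiftRight a n).testBit i = a.testBit (n + i) :=
  Nat.testBit_shiftRight a

@[simp] theorem tb_shl (a n i : ℕ) :
    (Nat.shiftLeft a n).testBit i = (decide (i ≥ n) && a.testBit (i - n)) :=
  Nat.testBit_shiftLeft a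

theorem bit_eq (c : ℕ) : bit c = 2 ^ c := Nat.one_shiftLeft c

@[simp] theorem tb_bit (c i : ℕ) : (bit c).testBit i = decide (c = i) := by
  rw [bit_eq, Nat.testBit_two_pow]

theorem tb_ones (n i : ℕ) : (Nat.sub (Nat.shiftLeft 1 n) 1).testBit i = decide (i < n) := by
  have : Nat.shiftLeft 1 n = 2 ^ n := Nat.one_shiftLeft n
  rw [this]
  exact Nat.testBit_two_pow_sub_one n i

@[simp] theorem tb_ce (i : ℕ) : (0x1ffffff : ℕ).testBit i = decide (i < 25) :=
  Nat.testBit_two_pow_sub_one 25 i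

@[simp] theorem tb_w (i : ℕ) : (0x1fffffffff : ℕ).testBit i = decide (i < 37) :=
  Nat.testBit_two_pow_sub_one 37 i

@[simp] theorem tb_li (i : ℕ) :
    (0x1ffe000000 : ℕ).testBit i = (decide (i < 37) ^^ decide (i < 25)) := by
  rw [← tb_w, ← tb_ce, ← tb_xor]
  rfl

theorem tb_ALL (i : ℕ) : ALL.testBit i = decide (i < 109) :=
  Nat.testBit_two_pow_sub_one 109 i

theorem land_z {a b : ℕ} (h : Nat.land a b = 0) {i : ℕ} (ha : a.testBit i = true) :
    b.testBit i = false := by
  have := congrArg (fun n => Nat.testBit n i) h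
  simpa [ha] using this

theorem xor_z {a b : ℕ} (h : Nat.xor a b = 0) : a = b := Nat.xor_eq_zero_iff.1 h

theorem sb_z {a b : ℕ} (h : sb a b = 0) {i : ℕ} (ha : a.testBit i = true) :
    b.testBit i = true := by
  have := congrArg (fun n => Nat.testBit n i) (xor_z h)
  simpa [ha] using this

theorem lb_z {a n : ℕ} (h : lb a n = 0) : a < n := by
  have : a + 1 - n = 0 := h
  omega

theorem beq_z {a : ℕ} (h : Nat.beq a 0 = true) : a = 0 := Nat.eq_of_beq_eq_true h

theorem land_lt (a n : ℕ) : Nat.land a (2 ^ n - 1) < 2 ^ n :=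
  Nat.lt_of_le_of_lt Nat.and_le_right (Nat.sub_lt (Nat.two_pow_pos n) Nat.one_pos)

@[simp] theorem tb_msk (l : List ℕ) (c : ℕ) : (msk l).testBit c = decide (c ∈ l) := by
  induction l with
  | nil => simp [msk]
  | cons a l ih =>
    have : msk (a :: l) = Nat.lor (bit a) (msk l) := rfl
    simp [this, ih, eq_comm]

theorem mp_eq (h : ℕ) (l : List ℕ) : mp h l = l.map (tb8 h) := by
  induction l with
  | nil => rfl
  | cons a l ih => exact congrArg (List.cons _) ih

theorem lt_ok : ∀ c, c < 125 → ∀ l, l < 109 → (lt c).testBit l = true → (ln l).testBit c = true := by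
  decide +kernel

theorem lt_inc {c l : ℕ} (h : (lt c).testBit l = true) : inc l c := by
  have h1 : (LT.testBit (109 * c + l) && decide (l < 109)) = true := by
    rw [← tb_ALL, ← tb_shr, ← tb_land]
    exact h
  rw [Bool.and_eq_true, decide_eq_true_eq] at h1
  refine lt_ok c ?_ l h1.2 h
  by_contra k
  have h2 : Nat.shiftRight LT 13625 = 0 := by decide +kernel
  have h3 := congrArg (fun n => Nat.testBit n (109 * c + l - 13625)) h2
  simp only [tb_shr, Nat.zero_testBit] at h3
  rw [show 13625 + (109 * c + l - 13625) = 109 * c + l by omega, h1.1] at h3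
  exact absurd h3 (by simp)

theorem kil_inc {B : List ℕ} {l : ℕ} (h : (kil B).testBit l = true) : ∃ c ∈ B, inc l c := by
  induction B with
  | nil => simp [kil] at h
  | cons a B ih =>
    have : (Nat.lor (lt a) (kil B)).testBit l = true := h
    rw [tb_lor, Bool.or_eq_true] at this
    rcases this with k | k
    · exact ⟨a, by simp, lt_inc k⟩
    · obtain ⟨c, h1, h2⟩ := ih k
      exact ⟨c, by simp [h1], h2⟩

theorem mul_lane {U c : ℕ} (hU : U < 2 ^ 128) (hc : U.testBit c = true) (j : ℕ) :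
    ∀ Y : ℕ, (∀ i, Y.testBit i = true → 128 ∣ i) → Y.testBit (128 * j) = true →
      (U * Y).testBit (128 * j + c) = true := by
  have c128 : c < 128 := by
    by_contra k
    have h3 := Nat.ge_two_pow_of_testBit hc
    have h4 : 2 ^ 128 ≤ 2 ^ c := Nat.pow_le_pow_right (by norm_num) (by omega)
    omega
  have key : ∀ Y : ℕ, (∀ i, Y.testBit i = true → 128 ∣ i) →
      Y % 2 ^ 128 = if Y.testBit 0 = true then 1 else 0 := by
    intro Y h
    apply Nat.eq_of_testBit_eq
    intro i
    rw [Nat.testBit_mod_two_pow]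
    by_cases i0 : i = 0
    · subst i0
      cases Y.testBit 0 <;> simp
    · have : (decide (i < 128) && Y.testBit i) = false := by
        by_contra k
        simp only [Bool.not_eq_false, Bool.and_eq_true, decide_eq_true_eq] at k
        have := h i k.2
        omega
      rw [this]
      split_ifs
      · exact (Nat.testBit_two_pow_of_ne (n := 0) (Ne.symm i0)).symm
      · simp
  have split : ∀ Y : ℕ, U * Y = 2 ^ 128 * (U * (Y / 2 ^ 128)) + U * (Y % 2 ^ 128) := by
    intro Y
    conv_lhs => rw [← Nat.div_add_mod Y (2 ^ 128)]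
    ring
  induction j with
  | zero =>
    intro Y h1 h2
    rw [split, key Y h1, if_pos h2, mul_one, Nat.testBit_two_pow_mul_add _ hU,
      if_pos (by omega)]
    simpa using hc
  | succ j ih =>
    intro Y h1 h2
    have : U * (Y % 2 ^ 128) < 2 ^ 128 := by
      rw [key Y h1]
      split_ifs
      · rwa [mul_one]
      · norm_num
    rw [split, Nat.testBit_two_pow_mul_add _ this, if_neg (by omega),
      show 128 * (j + 1) + c - 128 = 128 * j + c by omega]
    refine ih _ (fun i hi => ?_) ?_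
    · rw [Nat.testBit_div_two_pow] at hi
      have := h1 _ hi
      omega
    · rw [Nat.testBit_div_two_pow]
      exact h2

noncomputable def ones (n : ℕ) : ℕ := @Nat.rec (fun _ => ℕ) 0 (fun _ ih => 2 ^ 128 * ih + 1) n

theorem tb_on (n : ℕ) : ∀ i, (ones n).testBit i = true ↔ 128 ∣ i ∧ i < 128 * n := by
  induction n with
  | zero => simp [ones]
  | succ n ih =>
    intro i
    have : ones (n + 1) = 2 ^ 128 * ones n + 2 ^ 0 := rfl
    rw [this, Nat.testBit_two_pow_mul_add _ (by norm_num)]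
    split_ifs with h
    · rw [Nat.testBit_two_pow]
      simp only [decide_eq_true_eq]
      omega
    · rw [ih]
      omega

theorem tb_ONES (i : ℕ) : ONES.testBit i = true ↔ 128 ∣ i ∧ i < 65536 := by
  have : ONES = ones 512 := by decide +kernel
  rw [this, tb_on]

/-- A map on masks that is determined by its values on single bits. -/
def Ad (f : ℕ → ℕ) : Prop :=
  ∃ R : ℕ → ℕ → Prop, ∀ X p, (f X).testBit p = true ↔ ∃ q, X.testBit q = true ∧ R q p

theorem Ad.spec {f : ℕ → ℕ} (h : Ad f) (X p : ℕ) :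
    (f X).testBit p = true ↔ ∃ q, X.testBit q = true ∧ (f (bit q)).testBit p = true := by
  obtain ⟨R, h⟩ := h
  simp [h]

theorem Ad.id : Ad fun X => X := ⟨Eq, by simp⟩

theorem Ad.comp {f g : ℕ → ℕ} (hf : Ad f) (hg : Ad g) : Ad fun X => g (f X) := by
  obtain ⟨R, h⟩ := hf
  obtain ⟨S, k⟩ := hg
  refine ⟨fun q p => ∃ r, R q r ∧ S r p, fun X p => ?_⟩
  simp only [h, k]
  tauto

noncomputable def stg (w : ℕ → ℕ) (st : List (ℕ × ℕ)) (X : ℕ) : ℕ :=
  Nat.shiftRight (@List.rec (ℕ × ℕ) (fun _ => ℕ) 0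
    (fun z _ ih => Nat.lor (Nat.shiftLeft (Nat.land X (w z.1)) z.2) ih) st) 128

theorem tb_stg (w : ℕ → ℕ) (st : List (ℕ × ℕ)) (X p : ℕ) : (stg w st X).testBit p = true ↔
    ∃ z ∈ st, z.2 ≤ 128 + p ∧ X.testBit (128 + p - z.2) = true ∧
      (w z.1).testBit (128 + p - z.2) = true := by
  rw [stg, tb_shr]
  induction st with
  | nil => simp
  | cons z st ih =>
    rw [List.exists_mem_cons_iff, ← ih]
    show (Nat.lor _ _).testBit _ = true ↔ _
    simp only [tb_lor, tb_shl, tb_land, Bool.or_eq_true, Bool.and_eq_true, decide_eq_true_eq]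

theorem Ad.stg (st : List (ℕ × ℕ)) : Ad (stg (fun m => m) st) := by
  refine ⟨fun q p => ∃ z ∈ st, z.2 ≤ 128 + p ∧ q = 128 + p - z.2 ∧ z.1.testBit q = true,
    fun X p => ?_⟩
  rw [tb_stg]
  constructor
  · rintro ⟨z, a, b, c, d⟩
    exact ⟨_, c, z, a, b, rfl, d⟩
  · rintro ⟨_, c, z, a, b, rfl, d⟩
    exact ⟨z, a, b, c, d⟩

/-- A map that moves the first 25 bits of every lane according to `φ`. -/
def Lan (f φ : ℕ → ℕ) : Prop := ∀ c, c < 25 → ∀ X j : ℕ, j < 512 →
  X.testBit (128 * j + c) = true → (f X).testBit (128 * j + φ c) = true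

theorem Lan.id : Lan (fun X => X) fun c => c := fun _ _ _ _ _ h => h

theorem Lan.stg {f φ : ℕ → ℕ} (h : Lan f φ) (st : List (ℕ × ℕ)) (ψ : ℕ)
    (k : ∀ c, c < 25 → ∃ z ∈ st, z.1 < 2 ^ 128 ∧ z.1.testBit (φ c) = true ∧
      φ c + z.2 = 128 + tb8 ψ c) :
    Lan (fun X => stg (fun m => Nat.mul m ONES) st (f X)) (tb8 ψ) := by
  intro c hc X j hj hX
  obtain ⟨z, a, b, d, e⟩ := k c hc
  have : 128 + (128 * j + tb8 ψ c) - z.2 = 128 * j + φ c := by omega
  refine (tb_stg _ _ _ _).2 ⟨z, a, by omega, this ▸ h c hc X j hj hX, ?_⟩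
  rw [this]
  exact mul_lane b d j ONES (fun i hi => ((tb_ONES i).1 hi).1) ((tb_ONES _).2 (by omega))

end Pool.Agent.Lib.MP_e28b35_co
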