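import Pool.Agent.Lib.MP_e28b35_co.Db1
import Pool.Agent.Lib.MP_e28b35_co.Dlib

set_option autoImplicit false
set_option maxRecDepth 100000

namespace Pool.Agent.Lib.MP_e28b35_co

theorem pcPb1_001001 : BT.err (chkP LB 546304 1 [62] [43, 20, 33, 0]) Pb1_001001 = 0 := by decide +kernel

theorem pcPb1_00101 : BT.err (chkP LB 546304 1 [62] [43, 20, 33, 0]) Pb1_00101 = 0 := by decide +kernel

theorem pcPb1_00110 : BT.err (chkP LB 546304 1 [62] [43, 20, 33, 0]) Pb1_00110 = 0 := by decide +kernel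

theorem pcPb1_00111 : BT.err (chkP LB 546304 1 [62] [43, 20, 33, 0]) Pb1_00111 = 0 := by decide +kernel

theorem pcPb1_010000 : BT.err (chkP LB 546304 1 [62] [43, 20, 33, 0]) Pb1_010000 = 0 := by decide +kernel

theorem pcPb1_010001 : BT.err (chkP LB 546304 1 [62] [43, 20, 33, 0]) Pb1_010001 = 0 := by decide +kernel

theorem pcPb1_01001 : BT.err (chkP LB 546304 1 [62] [43, 20, 33, 0]) Pb1_01001 = 0 := by decide +kernel

theorem pcPb1_01010 : BT.err (chkP LB 546304 1 [62] [43, 20, 33, 0]) Pb1_01010 = 0 := by decide +kernel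

theorem pcPb1_010110 : BT.err (chkP LB 546304 1 [62] [43, 20, 33, 0]) Pb1_010110 = 0 := by decide +kernel

theorem pcPb1_010111 : BT.err (chkP LB 546304 1 [62] [43, 20, 33, 0]) Pb1_010111 = 0 := by decide +kernel

theorem pcPb1_011000 : BT.err (chkP LB 546304 1 [62] [43, 20, 33, 0]) Pb1_011000 = 0 := by decide +kernel

theorem pcPb1_011001 : BT.err (chkP LB 546304 1 [62] [43, 20, 33, 0]) Pb1_011001 = 0 := by decide +kernel

theorem pcPb1_01101 : BT.err (chkP LB 546304 1 [62] [43, 20, 33, 0]) Pb1_01101 = 0 := by decide +kernel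

theorem pcPb1_01110 : BT.err (chkP LB 546304 1 [62] [43, 20, 33, 0]) Pb1_01110 = 0 := by decide +kernel

theorem pcPb1_01111 : BT.err (chkP LB 546304 1 [62] [43, 20, 33, 0]) Pb1_01111 = 0 := by decide +kernel

theorem pcPb1_10000 : BT.err (chkP LB 546304 1 [62] [43, 20, 33, 0]) Pb1_10000 = 0 := by decide +kernel

end Pool.Agent.Lib.MP_e28b35_co
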