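import Pool.Agent.Lib.MP_e28b35_co.Db1
import Pool.Agent.Lib.MP_e28b35_co.Dlib

set_option autoImplicit false
set_option maxRecDepth 100000

namespace Pool.Agent.Lib.MP_e28b35_co

theorem pcPb1_10001 : BT.err (chkP LB 546304 1 [62] [43, 20, 33, 0]) Pb1_10001 = 0 := by decide +kernel

theorem pcPb1_10010 : BT.err (chkP LB 546304 1 [62] [43, 20, 33, 0]) Pb1_10010 = 0 := by decide +kernel

theorem pcPb1_10011 : BT.err (chkP LB 546304 1 [62] [43, 20, 33, 0]) Pb1_10011 = 0 := by decide +kernel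

theorem pcPb1_10100 : BT.err (chkP LB 546304 1 [62] [43, 20, 33, 0]) Pb1_10100 = 0 := by decide +kernel

theorem pcPb1_10101 : BT.err (chkP LB 546304 1 [62] [43, 20, 33, 0]) Pb1_10101 = 0 := by decide +kernel

theorem pcPb1_10110 : BT.err (chkP LB 546304 1 [62] [43, 20, 33, 0]) Pb1_10110 = 0 := by decide +kernel

theorem pcPb1_10111 : BT.err (chkP LB 546304 1 [62] [43, 20, 33, 0]) Pb1_10111 = 0 := by decide +kernel

theorem pcPb1_110000 : BT.err (chkP LB 546304 1 [62] [43, 20, 33, 0]) Pb1_110000 = 0 := by decide +kernel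

theorem pcPb1_110001 : BT.err (chkP LB 546304 1 [62] [43, 20, 33, 0]) Pb1_110001 = 0 := by decide +kernel

theorem pcPb1_11001 : BT.err (chkP LB 546304 1 [62] [43, 20, 33, 0]) Pb1_11001 = 0 := by decide +kernel

theorem pcPb1_11010 : BT.err (chkP LB 546304 1 [62] [43, 20, 33, 0]) Pb1_11010 = 0 := by decide +kernel

theorem pcPb1_11011 : BT.err (chkP LB 546304 1 [62] [43, 20, 33, 0]) Pb1_11011 = 0 := by decide +kernel

theorem pcPb1_11100 : BT.err (chkP LB 546304 1 [62] [43, 20, 33, 0]) Pb1_11100 = 0 := by decide +kernel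

theorem pcPb1_11101 : BT.err (chkP LB 546304 1 [62] [43, 20, 33, 0]) Pb1_11101 = 0 := by decide +kernel

theorem pcPb1_11110 : BT.err (chkP LB 546304 1 [62] [43, 20, 33, 0]) Pb1_11110 = 0 := by decide +kernel

end Pool.Agent.Lib.MP_e28b35_co
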