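import Mathlib
import Pool.Agent.Lib.MP_e28b35_co.Defs

/-!
The Maker-Breaker game on the 125 cells and 109 lines of the cube: abstract theory.
Cells are numbers below 125, lines are numbers below 109.
-/

set_option autoImplicit false

namespace Pool.Agent.Lib.MP_e28b35_co

def inc (l c : ℕ) : Prop := (ln l).testBit c = true

/-- Maker is to move; Breaker can take a cell of every line in `L` using cells in `U`. -/
inductive BW : Set ℕ → Set ℕ → Prop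
  | nil (U : Set ℕ) : BW ∅ U
  | step (L U : Set ℕ) (r : ℕ → ℕ) (hne : U.Nonempty) (hr : ∀ x ∈ U, r x ∈ U ∧ r x ≠ x)
      (ih : ∀ x ∈ U, BW {l | l ∈ L ∧ ¬ inc l (r x)} {c | c ∈ U ∧ c ≠ x ∧ c ≠ r x}) : BW L U

theorem BW.step' {L U : Set ℕ} (hne : U.Nonempty)
    (h : ∀ x ∈ U, ∃ y ∈ U, y ≠ x ∧ BW {l | l ∈ L ∧ ¬ inc l y} {c | c ∈ U ∧ c ≠ x ∧ c ≠ y}) :
    BW L U := by
  choose! r h1 h2 h3 using h
  exact BW.step L U r hne (fun x hx => ⟨h1 x hx, h2 x hx⟩) h3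

theorem BW.map {L U : Set ℕ} (h : BW L U) (φ : ℕ → ℕ) :
    ∀ {L' U' : Set ℕ}, Set.InjOn φ U → (∀ c ∈ U, φ c ∈ U') →
      (∀ l' ∈ L', ∃ l ∈ L, ∀ c ∈ U, inc l c → inc l' (φ c)) → BW L' U' := by
  induction h with
  | nil U =>
    intro L' U' _ _ h
    have : L' = ∅ := Set.eq_empty_of_forall_notMem fun l hl => by simpa using h l hl
    exact this ▸ BW.nil _
  | step L U r hne hr _ ih =>
    intro L' U' h1 h2 h3
    obtain ⟨x0, h0⟩ := hne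
    refine BW.step' ⟨_, h2 x0 h0⟩ fun x' hx' => ?_
    have : ∃ x ∈ U, ∀ c ∈ U, φ c = x' → c = x := by
      by_cases h : ∃ x ∈ U, φ x = x'
      · obtain ⟨x, hx, e⟩ := h
        exact ⟨x, hx, fun c hc e' => h1 hc hx (e'.trans e.symm)⟩
      · exact ⟨x0, h0, fun c hc e => absurd ⟨c, hc, e⟩ h⟩
    obtain ⟨x, hx, e⟩ := this
    obtain ⟨r1, r2⟩ := hr x hx
    refine ⟨φ (r x), h2 _ r1, fun h => r2 (e _ r1 h), ih x hx (h1.mono fun c hc => hc.1)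
      (fun c hc => ⟨h2 c hc.1, fun h => hc.2.1 (e c hc.1 h), fun h => hc.2.2 (h1 hc.1 r1 h)⟩) ?_⟩
    rintro l' ⟨a, b⟩
    obtain ⟨l, hl, k⟩ := h3 l' a
    exact ⟨l, ⟨hl, fun h => b (k _ r1 h)⟩, fun c hc => k c hc.1⟩

theorem BW.mono {L U L' U' : Set ℕ} (h : BW L U) (h1 : L' ⊆ L) (h2 : U ⊆ U') : BW L' U' :=
  h.map id (Set.injOn_id _) h2 fun l hl => ⟨l, h1 hl, fun _ _ h => h⟩

theorem BW.union {L1 U1 : Set ℕ} (h1 : BW L1 U1) :
    ∀ {L2 U2 : Set ℕ}, BW L2 U2 → (∀ c ∈ U1, c ∉ U2) → BW (L1 ∪ L2) (U1 ∪ U2) := by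
  induction h1 with
  | nil U => exact fun h2 _ => h2.mono (by simp) (by simp)
  | step L1 U1 r1 ne1 hr1 k1 ih1 =>
    intro L2 U2 h2
    induction h2 with
    | nil U => exact fun _ => (BW.step L1 U1 r1 ne1 hr1 k1).mono (by simp) (by simp)
    | step L2 U2 r2 ne2 hr2 k2 ih2 =>
      intro hd
      refine BW.step' (ne1.mono (by simp)) ?_
      rintro x (hx | hx)
      · obtain ⟨a, b⟩ := hr1 x hx
        refine ⟨r1 x, Or.inl a, b, (ih1 x hx (BW.step L2 U2 r2 ne2 hr2 k2)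
          fun c hc => hd c hc.1).mono ?_ ?_⟩
        · rintro l ⟨h | h, h'⟩
          · exact Or.inl ⟨h, h'⟩
          · exact Or.inr h
        · rintro c (h | h)
          · exact ⟨Or.inl h.1, h.2⟩
          · exact ⟨Or.inr h, fun e => hd x hx (e ▸ h), fun e => hd _ a (e ▸ h)⟩
      · obtain ⟨a, b⟩ := hr2 x hx
        refine ⟨r2 x, Or.inr a, b, (ih2 x hx fun c hc h => hd c hc h.1).mono ?_ ?_⟩
        · rintro l ⟨h | h, h'⟩
          · exact Or.inl h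
          · exact Or.inr ⟨h, h'⟩
        · rintro c (h | h)
          · exact ⟨Or.inl h, fun e => hd c h (e ▸ hx), fun e => hd c h (e ▸ a)⟩
          · exact ⟨Or.inr h.1, h.2⟩

theorem BW.pair {l a b : ℕ} (hab : a ≠ b) (ha : inc l a) (hb : inc l b) : BW {l} {a, b} := by
  refine BW.step' (by simp) ?_
  rintro x (rfl | rfl)
  · exact ⟨b, by simp, hab.symm, (BW.nil ∅).mono (by rintro l ⟨rfl, h⟩; exact h hb) (by simp)⟩
  · exact ⟨a, by simp, hab, (BW.nil ∅).mono (by rintro l ⟨rfl, h⟩; exact h ha) (by simp)⟩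

theorem BW.two {L U : Set ℕ} (h : BW L U) :
    ∀ l ∈ L, ∃ a ∈ U, ∃ b ∈ U, a ≠ b ∧ inc l a ∧ inc l b := by
  induction h with
  | nil U => simp
  | step L U r hne hr _ ih =>
    intro l hl
    have key : ∀ x ∈ U, ¬ inc l (r x) → ∃ a ∈ U, ∃ b ∈ U, a ≠ b ∧ inc l a ∧ inc l b := by
      intro x hx h
      obtain ⟨a, h1, b, h2, h3⟩ := ih x hx l ⟨hl, h⟩
      exact ⟨a, h1.1, b, h2.1, h3⟩
    by_cases h : ∃ x ∈ U, inc l x
    · obtain ⟨x, hx, h⟩ := h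
      by_cases h' : inc l (r x)
      · exact ⟨r x, (hr x hx).1, x, hx, (hr x hx).2, h', h⟩
      · exact key x hx h'
    · obtain ⟨x, hx⟩ := hne
      exact key x hx fun h' => h ⟨_, (hr x hx).1, h'⟩

/-- Breaker's answer, provided that there is still a second free cell. -/
theorem BW.reply {L U : Set ℕ} (h : BW L U) {x : ℕ} (hx : x ∈ U) (h2 : ∃ y ∈ U, y ≠ x) :
    ∃ y ∈ U, y ≠ x ∧ BW {l | l ∈ L ∧ ¬ inc l y} {c | c ∈ U ∧ c ≠ x ∧ c ≠ y} := by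
  cases h with
  | nil =>
    obtain ⟨y, h1, h2⟩ := h2
    exact ⟨y, h1, h2, (BW.nil ∅).mono (by simp) (by simp)⟩
  | step _ _ r hne hr ih => exact ⟨r x, (hr x hx).1, (hr x hx).2, ih x hx⟩

/-- Maker owns `M`, Breaker owns `B`, Maker is to move and Breaker can block every line. -/
def WM (M B : Set ℕ) : Prop :=
  BW {l | l < 109 ∧ ∀ c ∈ B, ¬ inc l c} {c | c < 125 ∧ c ∉ M ∧ c ∉ B}

/-- The same with Breaker to move. -/
def WB (M B : Set ℕ) : Prop := ∃ r, r < 125 ∧ r ∉ M ∧ r ∉ B ∧ WM M (insert r B)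

theorem WM.anti {M M' B : Set ℕ} (h : WM M' B) (h1 : ∀ c, c < 125 → c ∈ M → c ∈ M') : WM M B :=
  BW.mono h subset_rfl fun c hc => ⟨hc.1, fun k => hc.2.1 (h1 c hc.1 k), hc.2.2⟩

theorem WB.anti {M M' B : Set ℕ} (h : WB M' B) (h1 : ∀ c, c < 125 → c ∈ M → c ∈ M') : WB M B := by
  obtain ⟨r, a, b, c, d⟩ := h
  exact ⟨r, a, fun k => b (h1 r a k), c, d.anti h1⟩

theorem WM.of_WB {M B : Set ℕ} (hne : ∃ c, c < 125 ∧ c ∉ M ∧ c ∉ B)
    (h : ∀ x, x < 125 → x ∉ M → x ∉ B → WB (insert x M) B) : WM M B := by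
  refine BW.step' hne fun x hx => ?_
  obtain ⟨r, a, b, c, d⟩ := h x hx.1 hx.2.1 hx.2.2
  rw [Set.mem_insert_iff, not_or] at b
  refine ⟨r, ⟨a, b.2, c⟩, b.1, BW.mono d ?_ ?_⟩
  · rintro l ⟨⟨h1, h2⟩, h3⟩
    refine ⟨h1, ?_⟩
    rintro c (rfl | h)
    · exact h3
    · exact h2 c h
  · rintro c ⟨h1, h2, h3⟩
    rw [Set.mem_insert_iff, not_or] at h2 h3
    exact ⟨⟨h1, h2.2, h3.2⟩, h2.1, h3.1⟩

theorem WM.reply {M B : Set ℕ} (h : WM M B) {x : ℕ} (h1 : x < 125) (h2 : x ∉ M) (h3 : x ∉ B)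
    (h4 : ∃ y, y < 125 ∧ y ∉ M ∧ y ∉ B ∧ y ≠ x) : WB (insert x M) B := by
  obtain ⟨y, a, b, c⟩ := BW.reply h (x := x) ⟨h1, h2, h3⟩ (by
    obtain ⟨y, a, b, c, d⟩ := h4
    exact ⟨y, ⟨a, b, c⟩, d⟩)
  refine ⟨y, a.1, by simp [b, a.2.1], a.2.2, BW.mono c ?_ ?_⟩
  · rintro l ⟨h1, h2⟩
    exact ⟨⟨h1, fun c hc => h2 c (Or.inr hc)⟩, h2 y (Or.inl rfl)⟩
  · rintro c ⟨⟨h1, h2, h3⟩, h4, h5⟩
    exact ⟨h1, by simp [h2, h4], by simp [h3, h5]⟩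

theorem FULL_eq : FULL = 2 ^ 125 - 1 := by decide

theorem tb_FULL (c : ℕ) : FULL.testBit c = decide (c < 125) := by
  rw [FULL_eq, Nat.testBit_two_pow_sub_one]

theorem inc_lt {l c : ℕ} (h : inc l c) : c < 125 := by
  have : (Nat.shiftRight LN (Nat.mul 125 l) &&& FULL).testBit c = true := h
  rw [Nat.testBit_and, tb_FULL] at this
  simp at this
  exact this.2

/-- A symmetry of the cube with its inverse. -/
structure IsSym (h k : ℕ → ℕ) : Prop where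
  hlt : ∀ c, c < 125 → h c < 125
  klt : ∀ c, c < 125 → k c < 125
  kh : ∀ c, c < 125 → k (h c) = c
  hk : ∀ c, c < 125 → h (k c) = c
  fwd : ∀ l, l < 109 → ∃ l', l' < 109 ∧ ∀ c, c < 125 → (inc l c ↔ inc l' (h c))
  bwd : ∀ l', l' < 109 → ∃ l, l < 109 ∧ ∀ c, c < 125 → (inc l c ↔ inc l' (h c))

def pre (h : ℕ → ℕ) (M : Set ℕ) : Set ℕ := {c | h c ∈ M}

theorem IsSym.wm {h k : ℕ → ℕ} (s : IsSym h k) {M B : Set ℕ} (w : WM (pre h M) (pre h B)) :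
    WM M B := by
  refine BW.map w h (fun a ha b hb e => ?_) (fun c hc => ⟨s.hlt c hc.1, hc.2⟩) ?_
  · rw [← s.kh a ha.1, e, s.kh b hb.1]
  · rintro l' ⟨h1, h2⟩
    obtain ⟨l, a, b⟩ := s.bwd l' h1
    exact ⟨l, ⟨a, fun c hc i => h2 _ hc ((b c (inc_lt i)).1 i)⟩, fun c hc => (b c hc.1).1⟩

theorem WM.congr {M B B' : Set ℕ} (h : WM M B) (h1 : ∀ c, c < 125 → (c ∈ B ↔ c ∈ B')) :
    WM M B' :=
  BW.mono h (fun _ hl => ⟨hl.1, fun c hc i => hl.2 c ((h1 c (inc_lt i)).1 hc) i⟩)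
    fun c hc => ⟨hc.1, hc.2.1, fun k => hc.2.2 ((h1 c hc.1).2 k)⟩

theorem IsSym.wb {h k : ℕ → ℕ} (s : IsSym h k) {M B : Set ℕ}
    (hB : ∀ c, c < 125 → (h c ∈ B ↔ c ∈ B)) (w : WB (pre h M) B) : WB M B := by
  obtain ⟨r, a, b, c, d⟩ := w
  refine ⟨h r, s.hlt r a, b, fun e => c ((hB r a).1 e), s.wm (d.congr fun x hx => ?_)⟩
  simp only [pre, Set.mem_insert_iff, Set.mem_ofPred_eq, hB x hx]
  refine or_congr_left ⟨fun e => by rw [e], fun e => ?_⟩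
  rw [← s.kh x hx, e, s.kh r a]

end Pool.Agent.Lib.MP_e28b35_co
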