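import Pool.Agent.Lib.MP_e28b35_co.Bits

/-!
Soundness of the planar part: library entries, symmetries of the plane and slots.
-/

set_option autoImplicit false

namespace Pool.Agent.Lib.MP_e28b35_co

/-- A planar position: lines at the bits from 25 to 36, cells at the bits below 25. -/
def ValE (E : ℕ) : Prop :=
  BW {l | l < 12 ∧ E.testBit (25 + l) = true} {c | c < 25 ∧ E.testBit c = true}

def B37 (E : ℕ) : Prop := ∀ q, E.testBit q = true → q < 37

theorem B37.land (a : ℕ) : B37 (Nat.land a 0x1fffffffff) := fun q h => by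
  simp at h
  exact h.2

theorem ValE.zero : ValE 0 := (BW.nil ∅).mono (by simp) (by simp)

theorem ValE.lor {X Y : ℕ} (hX : ValE X) (hY : ValE Y) (h : Nat.land X Y = 0) :
    ValE (Nat.lor X Y) := by
  refine (BW.union hX hY fun c a b => ?_).mono (fun l hl => ?_) ?_
  · have := land_z h a.2
    simp [b.2] at this
  · simpa [← and_or_left] using hl
  · rintro c (a | a) <;> exact ⟨a.1, by simp [a.2]⟩

theorem okx {X E : ℕ} (h : Nat.land (Nat.xor X E)
    (Nat.lor (Nat.land X 0x1ffffff) (Nat.land E 0x1ffe000000)) = 0) :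
    (∀ c, c < 25 → X.testBit c = true → E.testBit c = true) ∧
      ∀ l, l < 12 → E.testBit (25 + l) = true → X.testBit (25 + l) = true := by
  refine ⟨fun c hc k => ?_, fun l hl k => ?_⟩
  · have := congrArg (fun n => Nat.testBit n c) h
    simpa [hc, k] using this
  · have := congrArg (fun n => Nat.testBit n (25 + l)) h
    simpa [k, show 25 + l < 37 by omega] using this

def FnOk (s : Fn) : Prop := ∀ E, B37 E → ValE E → ValE (s.f E)

def FnC (f : ℕ → ℕ) (g : ℕ) : Prop :=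
  (∀ q, q < 37 → f (bit q) = bit (tb8 g q)) ∧
  (∀ a, a < 25 → tb8 g a < 25 ∧ ∀ b, b < a → tb8 g a ≠ tb8 g b) ∧
  ∀ l, l < 12 → ∀ c, c < 25 → (ln l).testBit c = true →
    (ln (tb8 g (25 + l) - 25)).testBit (tb8 g c) = true

instance (f : ℕ → ℕ) (g : ℕ) : Decidable (FnC f g) := by
  unfold FnC
  infer_instance

theorem inj25 {φ : ℕ → ℕ} (h : ∀ a, a < 25 → ∀ b, b < a → φ a ≠ φ b) {U : Set ℕ}
    (hU : ∀ c ∈ U, c < 25) : Set.InjOn φ U := by
  intro a ha b hb e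
  rcases lt_trichotomy a b with k | k | k
  · exact absurd e.symm (h b (hU b hb) a k)
  · exact k
  · exact absurd e (h a (hU a ha) b k)

theorem fn_ok {f : ℕ → ℕ} (g : ℕ) (h : Ad f) (k : FnC f g) : FnOk ⟨f⟩ := by
  intro E h37 hE
  obtain ⟨k1, k2, k3⟩ := k
  refine BW.map hE (tb8 g) (inj25 (fun a ha => (k2 a ha).2) fun c hc => hc.1)
    (fun c hc => ⟨(k2 c hc.1).1, (h.spec _ _).2 ⟨c, hc.2, ?_⟩⟩) fun l' hl' => ?_
  · simp [k1 c (h37 c hc.2)]
  · obtain ⟨q, a, e⟩ := (h.spec _ _).1 hl'.2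
    have q37 := h37 q a
    rw [k1 q q37, tb_bit, decide_eq_true_eq] at e
    have q25 : 25 ≤ q := by
      by_contra z
      have := (k2 q (by omega)).1
      omega
    obtain ⟨j, rfl⟩ := Nat.exists_eq_add_of_le q25
    refine ⟨j, ⟨by omega, a⟩, fun c hc i => ?_⟩
    have := k3 j (by omega) c hc.1 i
    rwa [e, Nat.add_sub_cancel_left] at this

def PlOk (s : Pl) : Prop := ∃ φ : ℕ → ℕ, Lan s.ec φ ∧
  (∀ a, a < 25 → φ a < 125 ∧ ∀ b, b < a → φ a ≠ φ b) ∧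
  ∀ E l', B37 E → (s.el E).testBit l' = true →
    ∃ l, l < 12 ∧ E.testBit (25 + l) = true ∧ ∀ c, c < 25 → inc l c → inc l' (φ c)

def PlC (el : ℕ → ℕ) (φ ψ : ℕ) : Prop :=
  (∀ q, q < 25 → el (bit q) = 0) ∧
  (∀ a, a < 25 → tb8 φ a < 125 ∧ ∀ b, b < a → tb8 φ a ≠ tb8 φ b) ∧
  ∀ l, l < 12 → el (bit (25 + l)) = bit (tb8 ψ l) ∧ ∀ c, c < 25 → (ln l).testBit c = true →
    (ln (tb8 ψ l)).testBit (tb8 φ c) = true

instance (f : ℕ → ℕ) (g h : ℕ) : Decidable (PlC f g h) := by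
  unfold PlC
  infer_instance

theorem pl_ok {ec el : ℕ → ℕ} {φ : ℕ} (ψ : ℕ) (h1 : Lan ec (tb8 φ)) (h : Ad el)
    (k : PlC el φ ψ) : PlOk ⟨ec, el⟩ := by
  refine ⟨_, h1, k.2.1, fun E l' h37 hl => ?_⟩
  obtain ⟨q, a, e⟩ := (h.spec _ _).1 hl
  have q37 := h37 q a
  have q25 : 25 ≤ q := by
    by_contra z
    simp [k.1 q (by omega)] at e
  obtain ⟨j, rfl⟩ := Nat.exists_eq_add_of_le q25
  have := k.2.2 j (by omega)
  rw [this.1, tb_bit, decide_eq_true_eq] at e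
  exact ⟨j, by omega, a, e ▸ this.2⟩

def SymB (s : Sym) : Prop := IsSym (tb8 s.k) (tb8 s.h) ∧
  ∀ Y x : ℕ, x < 125 → Y.testBit (tb8 s.h x) = true → (s.pm Y).testBit x = true

theorem sym_ok (s : Sym) (p q : ℕ) (h : Ad s.pm) (k : okS s p q = 0) : SymB s := by
  have a := fun c hc => lor_z (smN_z (lor_z k).1 c hc)
  have b := fun c hc => lor_z (smN_z (lor_z k).2 c hc)
  have a1 := fun c hc => lb_z (lor_z (lor_z (a c hc).1).1).1
  have a2 := fun c hc => lb_z (lor_z (lor_z (a c hc).1).1).2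
  have a3 := fun c hc => xor_z (lor_z (lor_z (a c hc).1).2).1
  have a4 := fun c hc => xor_z (lor_z (lor_z (a c hc).1).2).2
  have a5 := fun c hc => xor_z (a c hc).2
  have key : ∀ l, l < 109 → ∀ c, c < 125 → (inc l c ↔ inc (tb8 p l) (tb8 s.k c)) := by
    intro l hl c hc
    rw [inc, inc, ← xor_z (lor_z (b l hl).2).2, h.spec]
    refine ⟨fun i => ⟨c, i, by simp [a5 c hc]⟩, ?_⟩
    rintro ⟨d, i, e⟩
    have hd := inc_lt i
    rw [a5 d hd, tb_bit, decide_eq_true_eq] at e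
    rwa [← a3 c hc, ← e, a3 d hd]
  refine ⟨⟨a2, a1, a3, a4, fun l hl => ⟨_, lb_z (lor_z (b l hl).1).1, key l hl⟩, fun l hl =>
    ⟨tb8 q l, lb_z (lor_z (b l hl).1).2, ?_⟩⟩, fun Y x hx hY => (h.spec _ _).2 ⟨_, hY, ?_⟩⟩
  · have := key _ (lb_z (lor_z (b l hl).1).2)
    rwa [xor_z (lor_z (b l hl).2).1] at this
  · simp [a5 _ (a1 x hx), a4 x hx]

end Pool.Agent.Lib.MP_e28b35_co
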