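import Pool.Agent.Lib.MP_e28b35_co.Tab

/-!
Soundness of the library check and of decompositions into planar games.
-/

set_option autoImplicit false

namespace Pool.Agent.Lib.MP_e28b35_co

def pt (i : ℕ) : ℕ := Nat.land (Nat.shiftRight PT (Nat.mul 37 i)) 0x1fffffffff

def kt (i : ℕ) : ℕ := Nat.land (Nat.shiftRight KT (Nat.mul 37 i)) 0x1fffffffff

theorem pt_ok : ∀ i, i < 128 → pt i = 0 ∨ (tb8 TA i ≠ tb8 TB i ∧ tb8 TA i < 25 ∧ tb8 TB i < 25 ∧
    (ln (tb8 TL i)).testBit (tb8 TA i) = true ∧ (ln (tb8 TL i)).testBit (tb8 TB i) = true ∧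
    pt i = Nat.lor (bit (25 + tb8 TL i)) (Nat.lor (bit (tb8 TA i)) (bit (tb8 TB i)))) := by
  decide +kernel

theorem kt_ok : ∀ y, y < 32 → (y < 25 ∧ (kt y).testBit y = true ∧
    ∀ l, l < 12 → (kt y).testBit (25 + l) = true → (ln l).testBit y = true) ∨
      ∀ c, c < 25 → (kt y).testBit c = true := by
  decide +kernel

theorem ValE.pt (c : ℕ) : ValE (pt (Nat.land c 127)) := by
  rcases pt_ok _ (land_lt c 7) with h | ⟨h1, h2, h3, h4, h5, h6⟩
  · exact (congrArg ValE h).mpr ValE.zero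
  refine (congrArg ValE h6).mpr ((BW.pair h1 h4 h5).mono (fun l hl => ?_) ?_)
  · have := hl.2
    simp only [tb_lor, tb_bit, Bool.or_eq_true, decide_eq_true_eq] at this
    exact Set.mem_singleton_iff.2 (by omega)
  · rintro c (rfl | rfl)
    · exact ⟨h2, by simp⟩
    · exact ⟨h3, by simp⟩

def LibOk (LB : BT ℕ) (n : ℕ) : Prop := ∀ e, e < n → ValE (le LB e)

theorem ValE.coreI {LB : BT ℕ} {n v : ℕ} (h : LibOk LB n) (hv : v < 32 * n) :
    ValE (coreI LB v) := by
  refine SK_ok.get (Nat.land v 31) _ (B37.land _) (h _ ?_)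
  have : Nat.shiftRight v 5 = v / 2 ^ 5 := Nat.shiftRight_eq_div_pow v 5
  omega

theorem ValE.dg {LB : BT ℕ} {n : ℕ} (h : LibOk LB n) {f : ℕ → ℕ} (hf : ∀ c, ValE (f c)) (c : ℕ) :
    ValE (dg LB (Nat.mul 32 n) f c) := by
  refine brec (fun _ => ValE.zero) fun k => ?_
  obtain ⟨k1, k2⟩ := lor_z (beq_z k)
  refine ((((ValE.pt _).lor (ValE.pt _) (lor_z k1).1).lor (ValE.pt _) (lor_z k1).2).lor
    (nrec (fun _ => ValE.zero) fun v _ => brec (fun z => ValE.coreI h ?_) fun _ => ValE.zero)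
    (lor_z k2).1).lor (brec (fun _ => hf _) fun _ => ValE.zero) (lor_z k2).2
  exact Nat.lt_of_not_le fun a => by simp [Nat.ble_eq_true_of_le a] at z

theorem LibOk.dc {LB : BT ℕ} {n : ℕ} (h : LibOk LB n) (c : ℕ) : ValE (dc LB (Nat.mul 32 n) c) :=
  ValE.dg h (ValE.dg h (ValE.dg h (ValE.dg h fun _ => ValE.zero))) c

theorem ent_ok {LB : BT ℕ} {e c : ℕ} (h : LibOk LB e) (k : ent LB e c = 0) : ValE (le LB e) := by
  unfold ent at k
  generalize le LB e = E at k
  have key : ∀ x, x < 25 → ∃ y, y < 25 ∧ E.testBit y = true ∧ y ≠ x ∧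
      BW {l | l ∈ {l | l < 12 ∧ E.testBit (25 + l) = true} ∧ ¬ inc l y}
        {c | c ∈ {c | c < 25 ∧ E.testBit c = true} ∧ c ≠ x ∧ c ≠ y} := by
    intro x hx
    have k := congrArg (fun n => Nat.testBit n x) k
    generalize rcs 6 c = L at k
    induction L with
    | nil => simp [hx] at k
    | cons s L ih =>
      rcases Bool.and_eq_false_iff.1 ((tb_land _ _ _).symm.trans (k.trans (Nat.zero_testBit x)))
        with k | k
      swap
      · exact ih (k.trans (Nat.zero_testBit x).symm)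
      revert k
      refine brec (p := fun z => Nat.testBit z x = false → _) (fun _ k => by simp [hx] at k)
        fun a k => ?_
      have hX := h.dc (Nat.shiftRight s 5)
      have hK := kt_ok _ (land_lt s 5)
      obtain ⟨a1, a2⟩ := lor_z (beq_z a)
      obtain ⟨a2, a3⟩ := okx a2
      change Nat.land _ (kt (Nat.land s (2 ^ 5 - 1))) = 0 at a1
      change (Nat.lor _ (kt (Nat.land s (2 ^ 5 - 1)))).testBit x = false at k
      change ∀ c, _ → (Nat.lor _ (kt (Nat.land s (2 ^ 5 - 1)))).testBit c = true → _ at a2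
      change ∀ l, _ → _ → (Nat.lor _ (kt (Nat.land s (2 ^ 5 - 1)))).testBit _ = true at a3
      generalize Nat.land s (2 ^ 5 - 1) = y at *
      generalize dc LB (Nat.mul 32 e) (Nat.shiftRight s 5) = X at *
      simp only [tb_lor, Bool.or_eq_false_iff, Bool.or_eq_true] at k a2 a3
      obtain ⟨y1, y2, y3⟩ := hK.resolve_right fun z => by simp [z x hx] at k
      refine ⟨y, y1, a2 y y1 (Or.inr y2), fun z => by simp [← z, y2] at k, BW.mono hX ?_ ?_⟩
      · rintro l ⟨⟨l1, l2⟩, l3⟩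
        exact ⟨l1, (a3 l l1 l2).resolve_right fun z => l3 (y3 l l1 z)⟩
      · rintro c ⟨c1, c2⟩
        refine ⟨⟨c1, a2 c c1 (Or.inl c2)⟩, fun z => by simp [← z, c2] at k, fun z => ?_⟩
        have := land_z a1 c2
        simp [z, y2] at this
  obtain ⟨y, y1, y2, -⟩ := key 0 (by norm_num)
  refine BW.step' ⟨y, y1, y2⟩ fun x hx => ?_
  obtain ⟨y, y1, y2, y3⟩ := key x hx.1
  exact ⟨y, ⟨y1, y2⟩, y3⟩

theorem lrg_ok {LB : BT ℕ} {f : ℕ} {cs : List ℕ} :
    ∀ {e}, lrg LB f cs e = 0 → LibOk LB e → LibOk LB f := by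
  induction cs with
  | nil => exact fun k h => xor_z k ▸ h
  | cons c cs ih =>
    intro e k h
    refine ih (lor_z k).2 fun i hi => ?_
    rcases Nat.lt_succ_iff_lt_or_eq.1 hi with a | rfl
    · exact h i a
    · exact ent_ok h (lor_z k).1

theorem LibOk.zero (LB : BT ℕ) : LibOk LB 0 := fun _ h => absurd h (Nat.not_lt_zero _)

def DcOk (LB : BT ℕ) (nb : ℕ) : Prop := ∀ c, ValE (dc LB nb c)

theorem hd_ok {LB : BT ℕ} {nb E : ℕ} (h : DcOk LB nb) (hE : B37 E) (A : List ℕ) :
    ValE (hd LB nb E A) ∧ B37 (hd LB nb E A) := by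
  have z : ValE 0 ∧ B37 0 := ⟨ValE.zero, fun q h => by simp at h⟩
  cases A with
  | nil => exact z
  | cons c A =>
    refine brec (p := fun z => ValE z ∧ B37 z) (fun _ => z) fun k => ⟨?_, hE⟩
    obtain ⟨a, b⟩ := okx (beq_z k)
    exact BW.mono (h c) (fun l hl => ⟨hl.1, b l hl.1 hl.2⟩) fun c hc => ⟨hc.1, a c hc.1 hc.2⟩

theorem lns_ok {LB : BT ℕ} {nb E O : ℕ} (h : DcOk LB nb) (hE : ValE E)
    (hO : ∀ i, O.testBit i = true → 128 ∣ i) (A : List ℕ) :
    ∀ j, (∀ i, i ≤ j → O.testBit (128 * i) = true) →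
      BW {l | l < 12 ∧ E.testBit (25 + l) = true}
        {c | c < 25 ∧ E.testBit c = true ∧ (lns LB nb E O A).testBit (128 * j + c) = true} := by
  induction A with
  | nil =>
    refine fun j hj => BW.mono hE subset_rfl fun c hc => ⟨hc.1, hc.2, mul_lane
      (lt_trans (land_lt E 25) (by norm_num)) ?_ j O hO (hj j le_rfl)⟩
    rw [tb_land, hc.2, Nat.testBit_two_pow_sub_one]
    simpa using hc.1
  | cons s A ih =>
    intro j hj
    cases j with
    | zero =>
      refine BW.mono (L := {l | l < 12 ∧ E.testBit (25 + l) = true}) (U := {c | c < 25 ∧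
        E.testBit c = true ∧ Nat.testBit _ c = true}) ?_ subset_rfl fun c hc =>
          ⟨hc.1, hc.2.1, (tb_lor _ _ _).trans (Bool.or_eq_true_iff.2 (Or.inl
            ((congrArg _ (Nat.zero_add c)).trans hc.2.2)))⟩
      refine brec (p := fun z => BW _ {c | c < 25 ∧ E.testBit c = true ∧ Nat.testBit z c = true})
        (fun _ => BW.mono hE subset_rfl fun c hc => ⟨hc.1, hc.2, by simp [hc.1, hc.2]⟩) fun k => ?_
      obtain ⟨a, b⟩ := okx (beq_z k)
      exact BW.mono (h s) (fun l hl => ⟨hl.1, b l hl.1 hl.2⟩)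
        fun c hc => ⟨hc.1, a c hc.1 hc.2, by simp [hc.1, hc.2]⟩
    | succ j =>
      refine BW.mono (ih j fun i hi => hj i (by omega)) subset_rfl fun c hc =>
        ⟨hc.1, hc.2.1, (tb_lor _ _ _).trans (Bool.or_eq_true_iff.2 (Or.inr ?_))⟩
      rw [tb_shl, show 128 * (j + 1) + c - 128 = 128 * j + c by omega]
      exact Bool.and_eq_true_iff.2 ⟨by simp; omega, hc.2.2⟩

theorem sls_ok {LB : BT ℕ} {nb N O MK Em : ℕ} (h : DcOk LB nb)
    (hO : ∀ i, O.testBit i = true → 128 ∣ i)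
    (hO' : ∀ i, i < 512 → 128 * i ≤ Em → O.testBit (128 * i) = true)
    (hM : ∀ i, i < Em + 128 → MK.testBit i = true) (S : List ℕ) :
    ∀ Us acc Ln, sls LB nb N O MK S Us acc Ln = 0 →
      (∀ i c, c < 125 → Us.testBit (128 * i + c) = true → acc.testBit c = false) ∧
      (∀ i j c, c < 125 → Us.testBit (128 * i + c) = true → Us.testBit (128 * j + c) = true →
        i = j) ∧
      ∀ sel : ℕ → ℕ, (∀ i, sel i < 512 ∧ 128 * sel i ≤ Em) → BW {l | Ln.testBit l = true}
        {c | c < 125 ∧ ∃ i, Us.testBit (128 * i + c) = true ∧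
          N.testBit (128 * sel i + c) = true} := by
  induction S with
  | nil =>
    intro Us acc Ln k
    obtain ⟨rfl, rfl⟩ := lor_z k
    exact ⟨by simp, by simp, fun _ _ => (BW.nil ∅).mono (by simp) (by simp)⟩
  | cons s S ih =>
    intro Us acc Ln k
    obtain ⟨φ, p1, p2, p3⟩ := PLN_ok.get (Nat.land s 31)
    obtain ⟨hE, h37⟩ := hd_ok h (B37.land (Nat.shiftRight s 5)) (rcs 6 (Nat.shiftRight s 42))
    have hL := lns_ok h hE hO (rcs 6 (Nat.shiftRight s 42))
    change (fun (z : Pl) A E => Nat.lor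
      (Nat.lor (Nat.xor (z.ec (Nat.land E 0x1ffffff)) (Nat.land Us FULL))
        (Nat.land (z.ec (Nat.land E 0x1ffffff)) acc))
      (Nat.lor (sb (z.ec (Nat.land (lns LB nb E O A) MK)) N)
        (sls LB nb N O MK S (Nat.shiftRight Us 128) (Nat.lor acc (z.ec (Nat.land E 0x1ffffff)))
          (Nat.xor Ln (Nat.land Ln (z.el E)))))) (PLN.get (Nat.land s 31))
      (rcs 6 (Nat.shiftRight s 42))
      (hd LB nb (Nat.land (Nat.shiftRight s 5) 0x1fffffffff) (rcs 6 (Nat.shiftRight s 42))) = 0 at k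
    generalize rcs 6 (Nat.shiftRight s 42) = A at *
    generalize hd LB nb (Nat.land (Nat.shiftRight s 5) 0x1fffffffff) A = E at *
    generalize PLN.get (Nat.land s 31) = z at *
    obtain ⟨ec, el⟩ := z
    obtain ⟨k1, k3⟩ := lor_z (lor_z k).1
    obtain ⟨k2, k4⟩ := lor_z (lor_z k).2
    obtain ⟨i1, i2, i3⟩ := ih _ _ _ k4
    clear k k4 ih
    dsimp only at *
    have p4 : ∀ c, c < 25 → E.testBit c = true →
        (ec (Nat.land E 0x1ffffff)).testBit (128 * 0 + φ c) = true :=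
      fun c a b => p1 c a _ 0 (by norm_num) (by simp [a, b])
    generalize ec (Nat.land E 0x1ffffff) = U at *
    have hU : ∀ c, c < 125 → U.testBit c = Us.testBit (128 * 0 + c) := by
      intro c hc
      simp [xor_z k1, tb_FULL, hc]
    have e : ∀ i c, (Nat.shiftRight Us 128).testBit (128 * i + c) =
        Us.testBit (128 * (i + 1) + c) := by
      intro i c
      rw [tb_shr, show 128 + (128 * i + c) = 128 * (i + 1) + c by omega]
    simp only [e, tb_lor, Bool.or_eq_false_iff] at i1 i2 i3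
    refine ⟨fun i c hc a => ?_, fun i j c hc a b => ?_, fun sel hs => ?_⟩
    · cases i with
      | zero => exact land_z k3 ((hU c hc).trans a)
      | succ i => exact (i1 i c hc a).1
    · cases i <;> cases j
      · rfl
      · exact absurd ((hU c hc).trans a) (by simp [(i1 _ c hc b).2])
      · exact absurd ((hU c hc).trans b) (by simp [(i1 _ c hc a).2])
      · rw [i2 _ _ c hc a b]
    · have w : BW {l | (el E).testBit l = true} {c | c < 125 ∧ Us.testBit (128 * 0 + c) = true ∧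
          N.testBit (128 * sel 0 + c) = true} := by
        refine BW.map (hL (sel 0) fun i hi => hO' i (by have := hs 0; omega)
          (by have := hs 0; omega)) φ (inj25 (fun a ha => (p2 a ha).2) fun c hc => hc.1)
          (fun c hc => ⟨(p2 c hc.1).1, ?_, sb_z k2 (p1 c hc.1 _ _ (hs 0).1 ?_)⟩) fun l hl => ?_
        · rw [← hU _ (p2 c hc.1).1]
          simpa using p4 c hc.1 hc.2.1
        · rw [tb_land, hc.2.2, hM _ (by have := hs 0; have := hc.1; omega)]
          rfl
        · obtain ⟨l', a, b, d⟩ := p3 E l h37 hl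
          exact ⟨l', ⟨a, b⟩, fun c hc => d c hc.1⟩
      refine (w.union (i3 (fun i => sel (i + 1)) fun i => hs _) ?_).mono (fun l hl => ?_) ?_
      · rintro c ⟨c1, c2, -⟩ ⟨-, i, c3, -⟩
        exact absurd ((hU c c1).trans c2) (by simp [(i1 _ c c1 c3).2])
      · by_cases z : (el E).testBit l = true
        · exact Or.inl z
        · exact Or.inr (by simpa [z] using hl)
      · rintro c (⟨c1, c2⟩ | ⟨c1, i, c2⟩)
        · exact ⟨c1, 0, c2⟩
        · exact ⟨c1, i + 1, c2⟩

noncomputable def rd (E n : ℕ) : ℕ → ℕ :=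
  @Nat.rec (fun _ => ℕ → ℕ) (fun N => N)
    (fun i ih N => ih (Nat.land N (Nat.shiftRight N (Nat.land E (2 ^ (7 + i)))))) n

theorem rd_ok (E n : ℕ) : ∀ N q, (rd E n N).testBit q = false →
    ∃ j, j < 2 ^ n ∧ 128 * j ≤ E % 2 ^ (7 + n) ∧ N.testBit (128 * j + q) = false := by
  induction n with
  | zero => exact fun N q h => ⟨0, by norm_num, by simp, by simpa [rd] using h⟩
  | succ n ih =>
    intro N q h
    obtain ⟨j, a, b, c⟩ := ih _ q h
    have e1 : E % 2 ^ (7 + (n + 1)) = E % 2 ^ (7 + n) + 2 ^ (7 + n) * (E / 2 ^ (7 + n) % 2) :=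
      Nat.mod_pow_succ
    have e2 : Nat.land E (2 ^ (7 + n)) = (E.testBit (7 + n)).toNat * 2 ^ (7 + n) :=
      Nat.and_two_pow E (7 + n)
    rw [tb_land, tb_shr, Bool.and_eq_false_iff, e2, Nat.toNat_testBit] at c
    have e3 : 2 ^ (7 + n) = 128 * 2 ^ n := by rw [pow_add]; norm_num
    rcases c with c | c
    · exact ⟨j, by omega, by omega, c⟩
    · rcases Nat.mod_two_eq_zero_or_one (E / 2 ^ (7 + n)) with z | z
      · rw [z, zero_mul, zero_add] at c
        exact ⟨j, by omega, by omega, c⟩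
      · rw [z, one_mul] at c
        rw [z, mul_one] at e1
        exact ⟨j + 2 ^ n, by omega, by omega, by rw [← c]; congr 1; omega⟩

theorem red_ok {E N q : ℕ} (h : (red E N).testBit q = false) :
    ∃ j, j < 512 ∧ 128 * j ≤ E ∧ N.testBit (128 * j + q) = false := by
  obtain ⟨j, a, b, c⟩ := rd_ok E 9 N q h
  exact ⟨j, a, b.trans (Nat.mod_le _ _), c⟩

theorem spr_ok {N Us q : ℕ} {T : List ℕ} (h : (spr N Us T).testBit q = false) :
    N.testBit q = false ∧ ∀ a ∈ T, (Nat.mul (Nat.land (Nat.shiftRight N a) ONES) (Nat.land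
      (Nat.div Us (Nat.land (Nat.shiftRight Us a) ONES)) FULL)).testBit q = false := by
  induction T with
  | nil => exact ⟨h, by simp⟩
  | cons a T ih =>
    obtain ⟨h1, h2⟩ := Bool.or_eq_false_iff.1 ((tb_lor _ _ _).symm.trans h)
    exact ⟨(ih h1).1, List.forall_mem_cons.2 ⟨h2, (ih h1).2⟩⟩

theorem chkD_ok {LB : BT ℕ} {nb : ℕ} (h : DcOk LB nb) {M B : List ℕ} {r N Us E c : ℕ}
    (k : chkD LB nb M B r N Us E c = 0) (T : List ℕ) (x : ℕ)
    (hx : ∀ y, y < 125 → y = x ∨ y ∈ T → (red E (spr N Us T)).testBit y = false) :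
    WB {c | c = x ∨ c ∈ T ∨ c ∈ M} {c | c ∈ B} := by
  obtain ⟨k1, k2⟩ := lor_z k
  obtain ⟨k1, k3⟩ := lor_z k1
  obtain ⟨k0, k1⟩ := lor_z k1
  obtain ⟨k3, k4⟩ := lor_z k3
  have hr := lb_z k0
  have hO : ∀ i, (Nat.land ONES (Nat.sub (Nat.shiftLeft 1 (Nat.add E 128)) 1)).testBit i = true ↔
      128 ∣ i ∧ i < 65536 ∧ i < E + 128 := by
    intro i
    rw [tb_land, Bool.and_eq_true, tb_ONES, tb_ones, decide_eq_true_eq, and_assoc]
  obtain ⟨s1, s2, s3⟩ := sls_ok (Em := E) h (fun i hi => ((hO i).1 hi).1)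
    (fun i a b => (hO _).2 (by omega)) (fun i hi => by rw [tb_ones]; simpa using hi) _ _ _ _ k2
  have key : ∀ y, y < 125 → y = x ∨ y ∈ T → ∃ j, (j < 512 ∧ 128 * j ≤ E) ∧
      N.testBit (128 * j + y) = false ∧ ∀ a ∈ T, a < 125 → ∀ i,
        Us.testBit (128 * i + a) = true → Us.testBit (128 * i + y) = true →
          N.testBit (128 * j + a) = false := by
    intro y hy z
    obtain ⟨j, j1, j2, j3⟩ := red_ok (hx y hy z)
    obtain ⟨t1, t2⟩ := spr_ok j3
    refine ⟨j, ⟨j1, j2⟩, t1, fun a ha a1 i a2 a3 => ?_⟩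
    have e : Nat.land (Nat.shiftRight Us a) ONES = 2 ^ (128 * i) := by
      apply Nat.eq_of_testBit_eq
      intro q
      rw [Bool.eq_iff_iff, tb_land, Bool.and_eq_true, tb_ONES, tb_shr, Nat.testBit_two_pow,
        decide_eq_true_eq]
      constructor
      · rintro ⟨u, ⟨v, rfl⟩, -⟩
        rw [s2 i v a a1 a2 (by rwa [add_comm])]
      · rintro rfl
        refine ⟨by rwa [add_comm], dvd_mul_right _ _, ?_⟩
        by_contra w
        have := congrArg (fun n => Nat.testBit n (128 * i + a - 65536)) k3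
        simp only [tb_shr, Nat.zero_testBit] at this
        rw [show 65536 + (128 * i + a - 65536) = 128 * i + a by omega, a2] at this
        exact absurd this (by simp)
    by_contra w
    have := t2 a ha
    rw [e, show ∀ u v : ℕ, Nat.mul u v = v * u from fun u v => Nat.mul_comm u v,
      mul_lane (lt_trans (FULL_eq ▸ land_lt _ 125) (by norm_num)) _ j] at this
    · exact absurd this (by simp)
    · exact fun i hi => ((tb_ONES i).1 (Bool.and_eq_true_iff.1 ((tb_land _ _ _).symm.trans hi)).2).1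
    · rw [tb_land, tb_shr, add_comm a, Bool.and_eq_true, tb_ONES]
      exact ⟨by simpa using w, by omega⟩
    · rw [tb_land, tb_FULL, show Nat.div Us (2 ^ (128 * i)) = Us / 2 ^ (128 * i) from rfl,
        Nat.testBit_div_two_pow, add_comm y, a3]
      simpa using hy
  have hs : ∀ i, ∃ j, (j < 512 ∧ 128 * j ≤ E) ∧ ∀ c, c < 125 → c = x ∨ c ∈ T →
      Us.testBit (128 * i + c) = true → N.testBit (128 * j + c) = false := by
    intro i
    by_cases z : x < 125 ∧ Us.testBit (128 * i + x) = true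
    · obtain ⟨j, j1, j2, j3⟩ := key x z.1 (Or.inl rfl)
      refine ⟨j, j1, ?_⟩
      rintro c c1 (rfl | c2) c3
      · exact j2
      · exact j3 c c2 c1 i c3 z.2
    by_cases w : ∃ a ∈ T, a < 125 ∧ Us.testBit (128 * i + a) = true
    · obtain ⟨a, a1, a2, a3⟩ := w
      obtain ⟨j, j1, -, j3⟩ := key a a2 (Or.inr a1)
      refine ⟨j, j1, ?_⟩
      rintro c c1 (rfl | c2) c3
      · exact absurd ⟨c1, c3⟩ z
      · exact j3 c c2 c1 i c3 a3
    · refine ⟨0, by simp, ?_⟩
      rintro c c1 (rfl | c2) c3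
      · exact absurd ⟨c1, c3⟩ z
      · exact absurd ⟨c, c2, c1, c3⟩ w
  choose sel t1 t2 using hs
  have r1 := land_z k1 (i := r) (by simp)
  simp only [tb_lor, tb_msk, Bool.or_eq_false_iff, decide_eq_false_iff_not, tb_bit] at r1 s1
  have r2 : ¬ (r = x ∨ r ∈ T) := by
    intro z
    obtain ⟨j, j1, j2, -⟩ := key r hr z
    have := sb_z k4 (mul_lane (U := bit r) (c := r) (by
      rw [bit_eq]
      exact Nat.pow_lt_pow_right (by norm_num) (by omega)) (by simp) j _
      (fun i hi => ((hO i).1 hi).1) ((hO _).2 (by omega)))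
    simp [j2] at this
  refine ⟨r, hr, fun z => ?_, r1.2, BW.mono (s3 sel t1) ?_ ?_⟩
  · rcases z with z | z | z
    · exact r2 (Or.inl z)
    · exact r2 (Or.inr z)
    · exact r1.1 z
  · rintro l ⟨l1, l2⟩
    have : (Nat.lor (lt r) (kil B)).testBit l = false := by
      by_contra z
      rw [Bool.not_eq_false, tb_lor, Bool.or_eq_true] at z
      rcases z with z | z
      · exact l2 r (Or.inl rfl) (lt_inc z)
      · obtain ⟨c, c1, c2⟩ := kil_inc z
        exact l2 c (Or.inr c1) c2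
    show Nat.testBit _ l = true
    rw [tb_xor, tb_land, this, tb_ALL]
    simp [l1]
  · rintro c ⟨c1, i, c2, c3⟩
    obtain ⟨a1, a2, a3⟩ := s1 i c c1 c2
    have : ¬ (c = x ∨ c ∈ T) := fun z => by simp [t2 i c c1 z c2] at c3
    refine ⟨c1, fun z => ?_, fun z => z.elim (fun e => a1 e.symm) a3⟩
    rcases z with z | z | z
    · exact this (Or.inl z)
    · exact this (Or.inr z)
    · exact a2 z

end Pool.Agent.Lib.MP_e28b35_co
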