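import Pool.Agent.Lib.MP_e28b35_co.Snd

/-!
Soundness of search trees, of pools of decompositions and of the covering loops.
-/

set_option autoImplicit false

namespace Pool.Agent.Lib.MP_e28b35_co

theorem wm_ok {Z : ℕ} {M B : List ℕ} (k : wm Z M B = 0)
    (h : ∀ x, x < 125 → Z.testBit x = false → WB {c | c = x ∨ c ∈ M} {c | c ∈ B}) :
    WM {c | c ∈ M} {c | c ∈ B} := by
  refine WM.of_WB ?_ fun x a b c => h x a ?_
  · by_contra z
    refine absurd (lb_z (lor_z k).2) (not_lt.2 (Nat.le_of_testBit fun i hi => ?_))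
    rw [tb_FULL, decide_eq_true_eq] at hi
    have := not_exists.1 z i
    simp only [Set.mem_ofPred_eq] at this
    simp only [tb_land, tb_lor, tb_msk, tb_FULL, hi, decide_true, Bool.true_and, Bool.or_eq_true,
      decide_eq_true_eq]
    tauto
  · by_contra z
    have := sb_z (lor_z k).1 (i := x) (by simpa [tb_FULL, a] using z)
    simp only [tb_lor, tb_msk, Bool.or_eq_true, decide_eq_true_eq] at this
    exact this.elim b c

theorem okr_ok {M B : List ℕ} {r : ℕ} (k : okr M B r = 0)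
    (h : WM {c | c ∈ M} {c | c ∈ r :: B}) : WB {c | c ∈ M} {c | c ∈ B} := by
  have := land_z (lor_z k).2 (i := r) (by simp)
  simp only [tb_lor, tb_msk, Bool.or_eq_false_iff, decide_eq_false_iff_not] at this
  exact ⟨r, lb_z (lor_z k).1, this.1, this.2, h.congr fun c _ => List.mem_cons⟩

theorem cov_ok {LB : BT ℕ} {nb : ℕ} (h : DcOk LB nb) (n : Nd) : ∀ M B x, x < 125 →
    (cov LB nb n M B).testBit x = false → WB {c | c = x ∨ c ∈ M} {c | c ∈ B} := by
  induction n with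
  | nil => exact fun M B x a b => absurd ((tb_FULL x).symm.trans b) (by simp [a])
  | leaf r N Us E c t ih =>
    intro M B x a b
    refine (Bool.and_eq_false_iff.1 ((tb_land _ _ _).symm.trans b)).elim ?_ (ih M B x a)
    refine brec (p := fun z => Nat.testBit z x = false → _)
      (fun _ b => absurd ((tb_FULL x).symm.trans b) (by simp [a])) fun k b => ?_
    refine (chkD_ok h (beq_z k) [] x fun y _ z => ?_).anti fun c _ z => by simpa using z
    rcases z with rfl | z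
    · exact b
    · simp at z
  | child y r s t i1 i2 =>
    intro M B x a b
    refine (Bool.and_eq_false_iff.1 ((tb_land _ _ _).symm.trans b)).elim ?_ (i2 M B x a)
    refine brec (p := fun z => Nat.testBit z x = false → _)
      (fun _ b => absurd ((tb_FULL x).symm.trans b) (by simp [a])) fun k b => ?_
    obtain ⟨k1, k2⟩ := lor_z (beq_z k)
    have : y = x := by simpa [tb_FULL, a] using b
    exact (okr_ok k1 (wm_ok k2 (i1 _ _))).anti fun c _ z => by simpa [this] using z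

theorem wbN_ok {LB : BT ℕ} {nb : ℕ} (h : DcOk LB nb) {M B : List ℕ} {r : ℕ} {n : Nd}
    (k : wbN LB nb M B r n = 0) : WB {c | c ∈ M} {c | c ∈ B} :=
  okr_ok (lor_z k).1 (wm_ok (lor_z k).2 (cov_ok h n _ _))

/-- Breaker to move wins, or (if allowed) Maker's cells lie on one line that is still open. -/
def PP (ex : ℕ) (B : List ℕ) (X : Set ℕ) : Prop := WB X {c | c ∈ B} ∨
  (ex = 1 ∧ ∃ l, l < 109 ∧ (∀ c ∈ B, ¬ inc l c) ∧ ∀ c, c < 125 → c ∈ X → inc l c)

theorem PP.anti {ex : ℕ} {B : List ℕ} {X Y : Set ℕ} (h : PP ex B Y)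
    (k : ∀ c, c < 125 → c ∈ X → c ∈ Y) : PP ex B X :=
  h.imp (fun h => h.anti k) fun ⟨a, l, b, c, d⟩ => ⟨a, l, b, c, fun x e f => d x e (k x e f)⟩

def SymOk (M B : List ℕ) (s : Sym) : Prop := SymB s ∧ (∀ c ∈ M, tb8 s.h c ∈ M) ∧
  (∀ c ∈ B, tb8 s.h c ∈ B) ∧ ∀ c ∈ B, tb8 s.k c ∈ B

theorem fixs_ok {M B : List ℕ} (s : Sym) (h : SymB s) (k : fixs M B s = 0) : SymOk M B s := by
  have key : ∀ {t : ℕ} {L : List ℕ}, sb (msk (mp t L)) (msk L) = 0 → ∀ c ∈ L, tb8 t c ∈ L := by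
    intro t L k c hc
    simpa using sb_z k (i := tb8 t c) (by simpa [mp_eq] using ⟨c, hc, rfl⟩)
  exact ⟨h, key (lor_z (lor_z k).1).1, key (lor_z (lor_z k).1).2, key (lor_z k).2⟩

theorem PP.sym {ex : ℕ} {M B : List ℕ} {s : Sym} (h : SymOk M B s) {X Y : Set ℕ}
    (k : ∀ c, c < 125 → c ∈ X → tb8 s.h c ∈ Y) (p : PP ex B Y) : PP ex B X := by
  obtain ⟨⟨s1, -⟩, -, s3, s4⟩ := h
  rcases p with p | ⟨a, l, b, c, d⟩
  · refine Or.inl (s1.wb (fun c hc => ⟨fun z => ?_, s4 c⟩) (p.anti fun c hc z => ?_))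
    · exact s1.kh c hc ▸ s3 _ z
    · exact s1.kh c hc ▸ k _ (s1.hlt c hc) z
  · obtain ⟨l', e, f⟩ := s1.fwd l b
    refine Or.inr ⟨a, l', e, fun x hx i => c _ (s3 x hx) ?_, fun x g i => ?_⟩
    · rwa [f _ (s1.klt x (inc_lt i)), s1.hk x (inc_lt i)]
    · rw [← s1.hk x g, ← f _ (s1.klt x g)]
      exact d _ (s1.klt x g) (k x g i)

def Snd (ex : ℕ) (M B T : List ℕ) (Y : ℕ) : Prop :=
  ∀ x, x < 125 → Y.testBit x = false → PP ex B {c | c = x ∨ c ∈ T ∨ c ∈ M}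

theorem Snd.full {ex : ℕ} {M B T : List ℕ} : Snd ex M B T FULL :=
  fun x a b => absurd ((tb_FULL x).symm.trans b) (by simp [a])

theorem Snd.land {ex : ℕ} {M B T : List ℕ} {X Y : ℕ} (a : Snd ex M B T X) (b : Snd ex M B T Y) :
    Snd ex M B T (Nat.land X Y) := fun x h k =>
  (Bool.and_eq_false_iff.1 ((tb_land _ _ _).symm.trans k)).elim (a x h) (b x h)

def Good (ex : ℕ) (M B : List ℕ) (p : PE) : Prop := ∀ T, Snd ex M B T (bad p.N p.Us p.E T)

theorem Snd.bad {ex : ℕ} {M B T : List ℕ} {N Us E : ℕ} (h : ∀ x, (∀ y, y < 125 → y = x ∨ y ∈ T →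
    (red E (spr N Us T)).testBit y = false) → PP ex B {c | c = x ∨ c ∈ T ∨ c ∈ M}) :
    Snd ex M B T (bad N Us E T) := by
  refine brec (fun _ => Snd.full) fun k x _ b => h x ?_
  rintro y - (rfl | z)
  · exact b
  · by_contra w
    have := land_z (beq_z k) (i := y) (by simpa using w)
    simp [z] at this

theorem chkP_ok {LB : BT ℕ} {nb ex : ℕ} (h : DcOk LB nb) {M B : List ℕ} (p : PE)
    (k : chkP LB nb ex M B p = 0) : Good ex M B p := by
  obtain ⟨N, Us, E, lf⟩ := p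
  have key : ∀ {Z : ℕ} (T : List ℕ) x, sb FULL (Nat.lor N Z) = 0 → sb (msk M) Z = 0 →
      (∀ y, y < 125 → y = x ∨ y ∈ T → (red 0 (spr N Us T)).testBit y = false) →
      ∀ c, c < 125 → c ∈ {c | c = x ∨ c ∈ T ∨ c ∈ M} → Z.testBit c = true := by
    intro Z T x k1 k2 hx c hc z
    rw [Set.mem_ofPred_eq, ← or_assoc] at z
    rcases z with z | z
    · obtain ⟨j, -, j1, j2⟩ := red_ok (hx c hc z)
      have := sb_z k1 (i := c) (by simp [tb_FULL, hc])
      obtain rfl : j = 0 := by omega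
      have j3 : N.testBit c = false := by simpa using (spr_ok j2).1
      simpa [j3] using this
    · exact sb_z k2 (by simpa using z)
  intro T
  cases lf with
  | d r c => exact Snd.bad fun x hx => Or.inl (chkD_ok h k T x hx)
  | x Ms r n =>
    obtain ⟨rfl, k1⟩ := lor_z (lor_z k).1
    obtain ⟨k2, k3⟩ := lor_z (lor_z k).2
    exact Snd.bad fun x hx => Or.inl ((wbN_ok h k3).anti fun c a b => by
      simpa using key T x k1 k2 hx c a b)
  | l l =>
    obtain ⟨k0, k1⟩ := lor_z (lor_z k).1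
    obtain ⟨rfl, k4⟩ := lor_z k0
    obtain ⟨k2, k3⟩ := lor_z (lor_z k).2
    refine Snd.bad fun x hx => Or.inr ⟨xor_z k4, l, lb_z (lor_z k2).1, fun c a b => ?_,
      key T x k1 (lor_z k2).2 hx⟩
    exact absurd b (by simp [inc, land_z k3 (i := c) (by simpa using a)])

section
variable {ex : ℕ} {M B : List ℕ} {S : BT Sym} {P : BT PE}

theorem it_ok (hP : P.All (Good ex M B)) {T : List ℕ} {f : ℕ → ℕ} (hf : ∀ c, Snd ex M B T (f c))
    (c : ℕ) : Snd ex M B T (it P T f c) :=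
  nrec (fun _ => Snd.full) fun d _ => (hP.get d T).land (hf _)

theorem its_ok (hP : P.All (Good ex M B)) (T : List ℕ) (c : ℕ) : Snd ex M B T (its P T c) := by
  have : ∀ {f : ℕ → ℕ}, (∀ c, Snd ex M B T (f c)) → ∀ c, Snd ex M B T (it4 P T f c) :=
    fun h => it_ok hP (it_ok hP (it_ok hP (it_ok hP h)))
  exact this (this (this (this fun _ => Snd.full))) c

theorem gr_ok (hS : S.All (SymOk M B)) (hP : P.All (Good ex M B)) {T : List ℕ} {f : ℕ → ℕ}
    (hf : ∀ c, Snd ex M B T (f c)) (c : ℕ) : Snd ex M B T (gr S P T f c) := by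
  refine nrec (fun _ => Snd.full) fun g _ => Snd.land (fun x a b => ?_) (hf _)
  have h := hS.get g
  refine PP.sym h (fun c _ z => ?_) (its_ok hP (mp (S.get g).h T) _ _ (h.1.1.klt x a)
    (Bool.eq_false_iff.2 fun w => Bool.eq_false_iff.1 b (h.1.2 _ x a w)))
  rcases z with rfl | z | z
  · exact Or.inl rfl
  · exact Or.inr (Or.inl (mp_eq _ _ ▸ List.mem_map_of_mem z))
  · exact Or.inr (Or.inr (h.2.1 c z))

/-- All positions with `s` further cells of Maker inside `A` are good. -/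
def Q (ex : ℕ) (M B T : List ℕ) (A s : ℕ) : Prop := ∀ W : Finset ℕ, W.card = s →
  (∀ c ∈ W, c < 125 ∧ A.testBit c = true) → PP ex B {c | c ∈ W ∨ c ∈ T ∨ c ∈ M}

theorem Q.zero {T : List ℕ} {s : ℕ} : Q ex M B T 0 (s + 1) := by
  intro W a b
  obtain ⟨c, hc⟩ := Finset.card_pos.1 (show 0 < W.card by omega)
  simpa using b c hc

theorem Q.mono {T : List ℕ} {A A' s : ℕ} (h : Q ex M B T A' s)
    (k : ∀ c, c < 125 → A.testBit c = true → A'.testBit c = true) : Q ex M B T A s :=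
  fun W a b => h W a fun c hc => ⟨(b c hc).1, k c (b c hc).1 (b c hc).2⟩

theorem Q.has {T : List ℕ} {A s a : ℕ} (h : Q ex M B (a :: T) A s) (W : Finset ℕ)
    (h1 : W.card = s + 1) (h2 : a ∈ W) (h3 : ∀ c ∈ W, c < 125 ∧ (c = a ∨ A.testBit c = true)) :
    PP ex B {c | c ∈ W ∨ c ∈ T ∨ c ∈ M} := by
  refine (h (W.erase a) (by simp [h1, h2]) fun c hc => ?_).anti fun c _ z => ?_
  · rw [Finset.mem_erase] at hc
    exact ⟨(h3 c hc.2).1, (h3 c hc.2).2.resolve_left hc.1⟩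
  · simp only [Set.mem_ofPred_eq, Finset.mem_erase, List.mem_cons] at z ⊢
    tauto

theorem L1_ok (hS : S.All (SymOk M B)) (hP : P.All (Good ex M B)) (T os : List ℕ) (c : ℕ)
    (k : L1 S P T os c = 0) : Q ex M B T (msk os) 1 := by
  have : ∀ {f : ℕ → ℕ}, (∀ c, Snd ex M B T (f c)) → ∀ c, Snd ex M B T (gr4 S P T f c) :=
    fun h => gr_ok hS hP (gr_ok hS hP (gr_ok hS hP (gr_ok hS hP h)))
  intro W a b
  obtain ⟨x, rfl⟩ := Finset.card_eq_one.1 a
  have hx := b x (by simp)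
  refine (this (this (this (this fun _ => Snd.full))) c x hx.1 ?_).anti fun c _ z => by
    simpa using z
  by_contra w
  exact absurd hx.2 (by simp [land_z k (i := x) (by simpa using w)])

theorem lp_ok {f : List ℕ → List ℕ → ℕ → ℕ} {s : ℕ}
    (hf : ∀ T os c, f T os c = 0 → Q ex M B T (msk os) s) {T : List ℕ} {Ae : ℕ} {cs : List ℕ} :
    ∀ {os}, lp f T Ae cs os = 0 → Q ex M B T Ae (s + 1) → Q ex M B T (msk os) (s + 1) := by
  induction cs with
  | nil => exact fun k h => h.mono fun _ _ => sb_z k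
  | cons c cs ih =>
    intro os k h
    cases os with
    | nil => exact Q.zero
    | cons a t =>
      intro W w1 w2
      by_cases z : a ∈ W
      · exact (hf _ _ _ (lor_z k).1).has W w1 z fun c hc => by simpa using w2 c hc
      · refine ih (lor_z k).2 h W w1 fun c hc => ⟨(w2 c hc).1, ?_⟩
        have := (w2 c hc).2
        simp only [tb_msk, List.mem_cons, decide_eq_true_eq] at this ⊢
        exact this.resolve_left fun e => z (e ▸ hc)

theorem L2_ok (hS : S.All (SymOk M B)) (hP : P.All (Good ex M B)) (T os : List ℕ) (c : ℕ)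
    (k : L2 S P T os c = 0) : Q ex M B T (msk os) 2 :=
  lp_ok (L1_ok hS hP) k Q.zero

theorem PP.img {s : Sym} (h : SymOk M B s) {W : Finset ℕ} (hW : ∀ c ∈ W, c < 125)
    (p : (W.image (tb8 s.h)).card = W.card →
      PP ex B {c | c ∈ W.image (tb8 s.h) ∨ c ∈ ([] : List ℕ) ∨ c ∈ M}) :
    PP ex B {c | c ∈ W ∨ c ∈ ([] : List ℕ) ∨ c ∈ M} := by
  refine PP.sym h (fun c _ z => ?_) (p (Finset.card_image_of_injOn fun a ha b hb e => ?_))
  · rcases z with z | z | z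
    · exact Or.inl (Finset.mem_image_of_mem _ z)
    · simp at z
    · exact Or.inr (Or.inr (h.2.1 c z))
  · rw [← h.1.1.hk a (hW a ha), e, h.1.1.hk b (hW b hb)]

def AQ (ex : ℕ) (M B : List ℕ) (s : ℕ) (l : List Ob) : Prop :=
  ∀ o ∈ l, Q ex M B [o.a] (msk o.os) s

theorem AQ.nil {s : ℕ} : AQ ex M B s [] := by simp [AQ]

theorem AQ.cons {s : ℕ} {o : Ob} {l : List Ob} (a : Q ex M B [o.a] (msk o.os) s)
    (b : AQ ex M B s l) : AQ ex M B s (o :: l) := List.forall_mem_cons.2 ⟨a, b⟩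

theorem obs_ok (hS : S.All (SymOk M B)) {s : ℕ} {l : List Ob} (h : AQ ex M B s l) :
    ∀ {A}, obs S l A = 0 → Q ex M B [] A (s + 1) := by
  induction l with
  | nil =>
    intro A k
    obtain rfl : A = 0 := k
    exact Q.zero
  | cons o l ih =>
    intro A k W w1 w2
    obtain ⟨h1, h2⟩ := List.forall_mem_cons.1 h
    obtain ⟨k1, k2⟩ := lor_z (lor_z k).1
    have key : ∀ W : Finset ℕ, W.card = s + 1 → (∀ c ∈ W, c < 125 ∧ A.testBit c = true) →
        o.a ∈ W → PP ex B {c | c ∈ W ∨ c ∈ ([] : List ℕ) ∨ c ∈ M} := fun W a b z =>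
      h1.has W a z fun c hc => ⟨(b c hc).1, by
        have := sb_z k1 (b c hc).2
        rw [tb_lor, tb_bit, Bool.or_eq_true, decide_eq_true_eq] at this
        exact this.imp_left Eq.symm⟩
    by_cases z : o.a ∈ W
    · exact key W w1 w2 z
    by_cases y : ∃ u ∈ o.ot, u.1 ∈ W
    · obtain ⟨u, u1, u2⟩ := y
      obtain ⟨k3, k4⟩ := lor_z (smL_z k2 u u1)
      have g := hS.get u.2
      refine PP.img g (fun c hc => (w2 c hc).1) fun e => key _ (e.trans w1) (fun c hc => ?_)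
        (Finset.mem_image.2 ⟨_, u2, xor_z k3⟩)
      obtain ⟨d, d1, rfl⟩ := Finset.mem_image.1 hc
      have d2 := g.1.1.klt d (w2 d d1).1
      refine ⟨d2, ?_⟩
      by_contra v
      have := land_z k4 (g.1.2 (Nat.xor FULL A) d (w2 d d1).1 (by simpa [tb_FULL, d2] using v))
      simp [(w2 d d1).2] at this
    · refine ih h2 (lor_z k).2 W w1 fun c hc => ⟨(w2 c hc).1, ?_⟩
      have a1 : o.a ≠ c := fun e => z (e ▸ hc)
      have a2 : c ∉ o.ot.map Prod.fst := by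
        intro v
        obtain ⟨u, u1, rfl⟩ := List.mem_map.1 v
        exact y ⟨u, u1, hc⟩
      rw [tb_xor, tb_land, tb_lor, tb_bit, tb_msk, (w2 c hc).2]
      simp only [a1, a2, decide_false]
      rfl

end

/-- After any `s` further moves of Maker, Breaker to move is fine. -/
def RR (ex : ℕ) (M B : List ℕ) (s : ℕ) : Prop := ∀ W : Finset ℕ, W.card = s →
  (∀ c ∈ W, c < 125 ∧ c ∉ M ∧ c ∉ B) → PP ex B {c | c ∈ W ∨ c ∈ ([] : List ℕ) ∨ c ∈ M}

theorem Q.rr {ex : ℕ} {M B : List ℕ} {A s : ℕ} (h : Q ex M B [] A s)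
    (k : sb FULL (Nat.lor A (Nat.lor (msk M) (msk B))) = 0) : RR ex M B s := by
  refine fun W a b => h W a fun c hc => ⟨(b c hc).1, ?_⟩
  simpa [(b c hc).2] using sb_z k (i := c) (by simp [tb_FULL, (b c hc).1])

theorem RR.base {M B : List ℕ} (h : WB {c | c ∈ M} {c | c ∈ B}) : RR 0 M B 0 := by
  intro W a _
  obtain rfl := Finset.card_eq_zero.1 a
  exact Or.inl (h.anti fun c _ z => by simpa using z)

theorem PP.wb {B : List ℕ} {X : Set ℕ} (h : PP 0 B X) : WB X {c | c ∈ B} :=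
  h.resolve_right fun z => absurd z.1 (by norm_num)

theorem RR.up {ex : ℕ} {M B : List ℕ} {r s : ℕ} (h : RR ex M (r :: B) (s + 1))
    (k : s < 5 ∧ r < 125 ∧ r ∉ M ∧ r ∉ B ∧ ∀ c ∈ Finset.Icc 5 9, c ∉ M ∧ c ∉ r :: B)
    (hx : ex = 1 → ∀ l x, l < 109 → x ∉ M → (∀ c ∈ r :: B, ¬ inc l c) → inc l x →
      (∀ c ∈ M, inc l c) → WB {c | c ≠ x ∧ inc l c} {c | c ∈ B})
    (W : Finset ℕ) (w1 : W.card = s) (w2 : ∀ c ∈ W, c < 125 ∧ c ∉ M ∧ c ∉ B) (w3 : r ∉ W)
    (hM : ∀ c ∈ M, c < 125) : PP 0 B {c | c ∈ W ∨ c ∈ ([] : List ℕ) ∨ c ∈ M} := by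
  obtain ⟨k1, k2, k3, k4, k5⟩ := k
  left
  by_cases z : ∀ x, x < 125 → x ∉ W → x ∉ M → x ∉ r :: B →
      WB (insert x {c | c ∈ W ∨ c ∈ ([] : List ℕ) ∨ c ∈ M}) {c | c ∈ r :: B}
  · refine ⟨r, k2, by simp [w3, k3], k4, WM.congr (B := {c | c ∈ r :: B}) (WM.of_WB ?_
      fun x a b c => z x a (fun e => b (Or.inl e)) (fun e => b (Or.inr (Or.inr e))) c)
      fun c _ => List.mem_cons⟩
    obtain ⟨c, c1, c2⟩ := Finset.exists_mem_notMem_of_card_lt_card (s := W) (t := Finset.Icc 5 9)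
      (by simp; omega)
    exact ⟨c, by simp at c1; omega, by simp [c2, (k5 c c1).1], (k5 c c1).2⟩
  · simp only [not_forall] at z
    obtain ⟨x, x1, x2, x3, x4, x5⟩ := z
    have := h (insert x W) (by simp [x2, w1]) (by
      intro c hc
      rcases Finset.mem_insert.1 hc with rfl | hc
      · exact ⟨x1, x3, x4⟩
      · exact ⟨(w2 c hc).1, (w2 c hc).2.1, by
          simp only [List.mem_cons, not_or]
          exact ⟨fun e => w3 (e ▸ hc), (w2 c hc).2.2⟩⟩)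
    obtain ⟨e, l, l1, l2, l3⟩ := this.resolve_left fun v => x5 (v.anti fun c _ u => by
      simpa [or_assoc] using u)
    refine (hx e l x l1 x3 l2 (l3 x x1 (by simp)) fun c hc => l3 c (hM c hc) (by simp [hc])).anti
      fun c c1 c2 => ⟨?_, l3 c c1 ?_⟩
    · rintro rfl
      simp [x2, x3] at c2
    · simp only [Set.mem_ofPred_eq, Finset.mem_insert] at c2 ⊢
      tauto

theorem RR.split {ex : ℕ} {M B : List ℕ} {r s : ℕ} (h : RR ex M (r :: B) (s + 2))
    (h' : RR 0 (r :: M) B s)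
    (k : (s + 1 < 5 ∧ r < 125 ∧ r ∉ M ∧ r ∉ B ∧ ∀ c ∈ Finset.Icc 5 9, c ∉ M ∧ c ∉ r :: B) ∧
      ∀ c ∈ M, c < 125)
    (hx : ex = 1 → ∀ l x, l < 109 → x ∉ M → (∀ c ∈ r :: B, ¬ inc l c) → inc l x →
      (∀ c ∈ M, inc l c) → WB {c | c ≠ x ∧ inc l c} {c | c ∈ B}) : RR 0 M B (s + 1) := by
  intro W w1 w2
  by_cases z : r ∈ W
  · refine (h' (W.erase r) (by simp [w1, z]) fun c hc => ?_).anti fun c _ u => ?_
    · rw [Finset.mem_erase] at hc
      have := w2 c hc.2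
      exact ⟨this.1, by simp [hc.1, this.2.1], this.2.2⟩
    · simp only [Set.mem_ofPred_eq, Finset.mem_erase, List.mem_cons] at u ⊢
      tauto
  · exact h.up k.1 hx W w1 w2 z k.2

theorem RR.avoid {M B : List ℕ} {r s : ℕ} (h : RR 0 M (r :: B) (s + 1)) (gs : List Sym)
    (hg : ∀ g ∈ gs, SymB g)
    (k : ((s < 5 ∧ r < 125 ∧ r ∉ M ∧ r ∉ B ∧ ∀ c ∈ Finset.Icc 5 9, c ∉ M ∧ c ∉ r :: B) ∧
      ∀ c ∈ M, c < 125) ∧ (∀ g ∈ gs, fixs M B g = 0 ∧ ∀ c ∈ M, tb8 g.k c ∈ M) ∧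
      s < (gs.map fun g => tb8 g.k r).toFinset.card) : RR 0 M B s := by
  intro W w1 w2
  obtain ⟨c, c1, c2⟩ := Finset.exists_mem_notMem_of_card_lt_card (w1 ▸ k.2.2)
  obtain ⟨g, g1, rfl⟩ := List.mem_map.1 (List.mem_toFinset.1 c1)
  have g2 := fixs_ok g (hg g g1) (k.2.1 g g1).1
  refine PP.img g2 (fun c hc => (w2 c hc).1) fun e => h.up k.1.1 (by simp) _ (e.trans w1)
    (fun c hc => ?_) (fun hc => ?_) k.1.2
  · obtain ⟨d, d1, rfl⟩ := Finset.mem_image.1 hc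
    obtain ⟨d2, d3, d4⟩ := w2 d d1
    exact ⟨g2.1.1.klt d d2, fun z => d3 (g2.1.1.hk d d2 ▸ (k.2.1 g g1).2 _ z),
      fun z => d4 (g2.1.1.hk d d2 ▸ g2.2.2.2 _ z)⟩
  · obtain ⟨d, d1, rfl⟩ := Finset.mem_image.1 hc
    exact c2 ((g2.1.1.hk d (w2 d d1).1).symm ▸ d1)

theorem RR.start {M B : List ℕ} {r : ℕ} (h : RR 0 M (r :: B) 1)
    (k : (0 < 5 ∧ r < 125 ∧ r ∉ M ∧ r ∉ B ∧ ∀ c ∈ Finset.Icc 5 9, c ∉ M ∧ c ∉ r :: B) ∧
      ∀ c ∈ M, c < 125) : RR 0 M B 0 := fun W w1 w2 =>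
  h.up k.1 (by simp) W w1 w2 (by simp [Finset.card_eq_zero.1 w1]) k.2

theorem RR.wm (h : RR 0 [] [] 1) : WM ∅ ∅ := by
  refine WM.of_WB ⟨0, by simp⟩ fun x a _ _ => ?_
  simpa using (h {x} (by simp) (by simpa using a)).wb

theorem chkX_ok {LB : BT ℕ} {nb : ℕ} (h : DcOk LB nb) {B : List ℕ} {z : XE}
    (k : chkX LB nb B z = 0) : WB {c | c ≠ z.x ∧ inc z.l c} {c | c ∈ B} :=
  (wbN_ok h (lor_z k).2).anti fun c _ u => by
    simpa [Ne.symm u.1] using sb_z (lor_z k).1 u.2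

end Pool.Agent.Lib.MP_e28b35_co
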