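import Pool.Agent.Lib.MP_e28b35_co.Link

/-!
A blocking strategy for either player, as a function of the history.
-/

set_option autoImplicit false

namespace Pool.Agent.Lib.MP_e28b35_co

open Classical in
noncomputable def strat (e : ℕ) (l : List Cell) : Cell :=
  if h : ∃ y, y ∉ l ∧ WM (ST (· % 2 ≠ e) l.length fun i => l.getD i 0)
      (insert (idx y) (ST (· % 2 = e) l.length fun i => l.getD i 0)) then h.choose
  else if h' : ∃ y, y ∉ l then h'.choose else 0

theorem strat_legal (e : ℕ) (l : List Cell) (hl : l.length < 125) : strat e l ∉ l := by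
  have h' : ∃ y, y ∉ l := by
    obtain ⟨y, -, hy⟩ := Finset.exists_mem_notMem_of_card_lt_card (s := l.toFinset)
      (t := Finset.univ) (by
        have := List.toFinset_card_le l
        simp only [Finset.card_univ, Fintype.card_fun, Fintype.card_fin]
        omega)
    exact ⟨y, by simpa using hy⟩
  unfold strat
  split_ifs with h
  · exact h.choose_spec.1
  · exact h'.choose_spec

theorem ST_congr (P : ℕ → Prop) (k : ℕ) {p q : ℕ → Cell} (h : ∀ i, i < k → p i = q i) :
    ST P k p = ST P k q := by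
  ext c
  constructor
  · rintro ⟨i, a, b, d⟩
    exact ⟨i, a, b, h i a ▸ d⟩
  · rintro ⟨i, a, b, d⟩
    exact ⟨i, a, b, (h i a).symm ▸ d⟩

theorem ST_succ' (P : ℕ → Prop) (k : ℕ) (p : ℕ → Cell) (c : ℕ) :
    c ∈ ST P (k + 1) p ↔ (P k ∧ c = idx (p k)) ∨ c ∈ ST P k p := by
  have := ST_succ P k p (p k) c
  rwa [Function.update_eq_self] at this

theorem strat_wm {e k : ℕ} {p : ℕ → Cell} (h : WB (ST (· % 2 ≠ e) k p) (ST (· % 2 = e) k p)) :
    WM (ST (· % 2 ≠ e) k p)
      (insert (idx (strat e ((List.range k).map p))) (ST (· % 2 = e) k p)) := by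
  have e1 : ∀ P, ST P ((List.range k).map p).length
      (fun i => ((List.range k).map p).getD i 0) = ST P k p := by
    intro P
    rw [List.length_map, List.length_range]
    exact ST_congr P k fun i hi => by simp [List.getD, hi]
  obtain ⟨r, r1, r2, r3, r4⟩ := h
  have ex : ∃ y, y ∉ (List.range k).map p ∧
      WM (ST (· % 2 ≠ e) ((List.range k).map p).length fun i => ((List.range k).map p).getD i 0)
      (insert (idx y) (ST (· % 2 = e) ((List.range k).map p).length
        fun i => ((List.range k).map p).getD i 0)) := by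
    refine ⟨cel r, fun hm => ?_, by rw [e1, e1, idx_cel r1]; exact r4⟩
    obtain ⟨i, hi, hp⟩ := List.mem_map.1 hm
    by_cases w : i % 2 = e
    · exact r3 ⟨i, List.mem_range.1 hi, w, by rw [hp, idx_cel r1]⟩
    · exact r2 ⟨i, List.mem_range.1 hi, w, by rw [hp, idx_cel r1]⟩
  have key : strat e ((List.range k).map p) = ex.choose := by
    unfold strat
    rw [dif_pos ex]
  have := ex.choose_spec.2
  rw [← key, e1, e1] at this
  exact this

theorem strat_inv {e n : ℕ} {p : ℕ → Cell} (he : e < 2) (h : Inv (strat e) e n p) :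
    ∀ k, k ≤ n → (k % 2 ≠ e → WM (ST (· % 2 ≠ e) k p) (ST (· % 2 = e) k p)) ∧
      (k % 2 = e → k < n → WB (ST (· % 2 ≠ e) k p) (ST (· % 2 = e) k p)) := by
  have z : ∀ P, ST P 0 p = ∅ := by simp [ST]
  have nm : ∀ P k j, k ≤ j → j < n → idx (p j) ∉ ST P k p := by
    rintro P k j a b ⟨i, c, -, d⟩
    have := h.1 i j (by omega) b (idx_inj d)
    omega
  intro k
  induction k with
  | zero =>
    intro _
    rw [z, z]
    exact ⟨fun _ => breaker, fun _ _ => (breaker.reply (x := 0) (by norm_num) (by simp) (by simp)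
      ⟨1, by simp⟩).anti (by simp)⟩
  | succ k ih =>
    intro hk
    obtain ⟨i1, i2⟩ := ih (by omega)
    refine ⟨fun a => ?_, fun a b => ?_⟩
    · have w : k % 2 = e := by omega
      have := strat_wm (i2 w (by omega))
      rw [← h.2 k (by omega) w] at this
      refine (this.anti fun c _ v => ?_).congr fun c _ => ?_
      · exact ((ST_succ' _ _ _ _).1 v).elim (fun u => absurd w u.1) id
      · rw [ST_succ', Set.mem_insert_iff]
        simp [w]
    · have w : k % 2 ≠ e := by omega
      obtain ⟨r, r1, r2, r3, r4⟩ := (i1 w).reply (idx_lt (p k)) (nm _ k k le_rfl (by omega))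
        (nm _ k k le_rfl (by omega)) ⟨idx (p (k + 1)), idx_lt _, nm _ k _ (by omega) b,
          nm _ k _ (by omega) b, fun v => by
            have := h.1 _ _ b (by omega) (idx_inj v)
            omega⟩
      have e1 : ST (· % 2 ≠ e) (k + 1) p = insert (idx (p k)) (ST (· % 2 ≠ e) k p) := by
        ext c
        rw [ST_succ', Set.mem_insert_iff]
        simp [w]
      have e2 : ST (· % 2 = e) (k + 1) p = ST (· % 2 = e) k p := by
        ext c
        rw [ST_succ']
        simp [w]
      rw [e1, e2]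
      exact ⟨r, r1, r2, r3, r4⟩

theorem strat_block {e n : ℕ} {p : ℕ → Cell} (he : e < 2) (h : Inv (strat e) e n p) {l : ℕ}
    (hl : l < 109) : ∃ c, inc l c ∧ c ∉ ST (· % 2 ≠ e) n p := by
  have dj : ∀ k, k ≤ n → ∀ c ∈ ST (· % 2 = e) k p, c ∉ ST (· % 2 ≠ e) k p := by
    rintro k hk c ⟨i, a, b, rfl⟩ ⟨j, d, f, g⟩
    exact f (h.1 j i (by omega) (by omega) (idx_inj g) ▸ b)
  by_cases w : n % 2 = e
  · rcases n with _ | k
    · obtain ⟨c, c1, -⟩ := breaker.block (by simp) (x := 0) (by simp) hl
      exact ⟨c, c1, by simp [ST]⟩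
    · obtain ⟨c, c1, c2, c3⟩ := ((strat_inv he h k (by omega)).1 (by omega)).block
        (dj k (by omega)) (x := idx (p k)) (by
          rintro ⟨i, a, -, b⟩
          have := h.1 i k (by omega) (by omega) (idx_inj b)
          omega) hl
      exact ⟨c, c1, fun v => ((ST_succ' _ _ _ _).1 v).elim (fun u => c3 u.2) c2⟩
  · obtain ⟨c, c1, c2, -⟩ := ((strat_inv he h n le_rfl).1 w).block (dj n le_rfl) (x := 125)
      (fun ⟨i, _, _, b⟩ => (idx_lt _).ne b) hl
    exact ⟨c, c1, c2⟩

theorem strat_list {e : ℕ} (he : e < 2) (l : List Cell) (hn : l.Nodup)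
    (hf : ∀ k : Fin l.length, k.val % 2 = e → l.get k = strat e (l.take k))
    (a : Cell) (s : Fin 3 → Fin 3) (hs : ∃ j, s j ≠ 0) :
    ¬ ∀ i : Fin 5, ∃ k : Fin l.length, k.val % 2 ≠ e ∧
      l.get k = fun j => if s j = 0 then a j else if s j = 1 then i else i.rev := by
  intro hall
  have g : ∀ i (hi : i < l.length), l.getD i 0 = l.get ⟨i, hi⟩ := fun i hi => by
    simp [List.getD, hi]
  have h : Inv (strat e) e l.length fun i => l.getD i 0 := by
    refine ⟨fun i j a b c => ?_, fun i a b => ?_⟩
    · simp only [g i a, g j b] at c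
      exact congrArg Fin.val (List.nodup_iff_injective_get.1 hn c)
    · have : (List.range i).map (fun i => l.getD i 0) = l.take i := by
        apply List.ext_getElem
        · simp; omega
        · intro j h1 h2
          have : j < l.length := by simp at h1; omega
          simp [List.getD, this]
      rw [this]
      exact (g i a).trans (hf ⟨i, a⟩ b)
  obtain ⟨m, m1, m2⟩ := line_ok a s hs
  obtain ⟨c, c1, c2⟩ := strat_block he h m1
  obtain ⟨i, rfl⟩ := m2 c c1
  obtain ⟨k, k1, k2⟩ := hall i
  exact c2 ⟨k, k.2, k1, congrArg idx ((g k k.2).trans k2)⟩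

end Pool.Agent.Lib.MP_e28b35_co
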