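import Pool.Agent.Lib.MP_e28b35_co.Stg
import Pool.Agent.Lib.MP_e28b35_co.C0
import Pool.Agent.Lib.MP_e28b35_co.C1
import Pool.Agent.Lib.MP_e28b35_co.C2
import Pool.Agent.Lib.MP_e28b35_co.C3
import Pool.Agent.Lib.MP_e28b35_co.C4
import Pool.Agent.Lib.MP_e28b35_co.C5
import Pool.Agent.Lib.MP_e28b35_co.C6
import Pool.Agent.Lib.MP_e28b35_co.C7
import Pool.Agent.Lib.MP_e28b35_co.C8
import Pool.Agent.Lib.MP_e28b35_co.C9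
import Pool.Agent.Lib.MP_e28b35_co.C10
import Pool.Agent.Lib.MP_e28b35_co.C11
import Pool.Agent.Lib.MP_e28b35_co.C12
import Pool.Agent.Lib.MP_e28b35_co.C13
import Pool.Agent.Lib.MP_e28b35_co.C14
import Pool.Agent.Lib.MP_e28b35_co.C15

/-!
All certificates together: Breaker wins the Maker-Breaker game as the second player.
-/

set_option autoImplicit false
set_option maxRecDepth 100000

namespace Pool.Agent.Lib.MP_e28b35_co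

theorem lib_ok : LibOk LB 17072 :=
  (lrg_ok lc48
  (lrg_ok lc47
  (lrg_ok lc46
  (lrg_ok lc45
  (lrg_ok lc44
  (lrg_ok lc43
  (lrg_ok lc42
  (lrg_ok lc41
  (lrg_ok lc40
  (lrg_ok lc39
  (lrg_ok lc38
  (lrg_ok lc37
  (lrg_ok lc36
  (lrg_ok lc35
  (lrg_ok lc34
  (lrg_ok lc33
  (lrg_ok lc32
  (lrg_ok lc31
  (lrg_ok lc30
  (lrg_ok lc29
  (lrg_ok lc28
  (lrg_ok lc27
  (lrg_ok lc26
  (lrg_ok lc25
  (lrg_ok lc24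
  (lrg_ok lc23
  (lrg_ok lc22
  (lrg_ok lc21
  (lrg_ok lc20
  (lrg_ok lc19
  (lrg_ok lc18
  (lrg_ok lc17
  (lrg_ok lc16
  (lrg_ok lc15
  (lrg_ok lc14
  (lrg_ok lc13
  (lrg_ok lc12
  (lrg_ok lc11
  (lrg_ok lc10
  (lrg_ok lc9
  (lrg_ok lc8
  (lrg_ok lc7
  (lrg_ok lc6
  (lrg_ok lc5
  (lrg_ok lc4
  (lrg_ok lc3
  (lrg_ok lc2
  (lrg_ok lc1
  (lrg_ok lc0
  (LibOk.zero LB))))))))))))))))))))))))))))))))))))))))))))))))))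

theorem dc_ok : DcOk LB 546304 :=
  (show Nat.mul 32 17072 = 546304 by decide +kernel) ▸ lib_ok.dc

theorem gpb1 : Pb1_.All (Good 1 [62] [43, 20, 33, 0]) :=
  (BT.All.nd (BT.All.nd (BT.All.nd (BT.All.nd (BT.All.nd (BT.All.of_err (fun p _ => chkP_ok dc_ok p) (BT.All.triv _) pcPb1_00000)
  (BT.All.of_err (fun p _ => chkP_ok dc_ok p) (BT.All.triv _) pcPb1_00001))
  (BT.All.nd (BT.All.of_err (fun p _ => chkP_ok dc_ok p) (BT.All.triv _) pcPb1_00010)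
  (BT.All.of_err (fun p _ => chkP_ok dc_ok p) (BT.All.triv _) pcPb1_00011)))
  (BT.All.nd (BT.All.nd (BT.All.nd (BT.All.of_err (fun p _ => chkP_ok dc_ok p) (BT.All.triv _) pcPb1_001000)
  (BT.All.of_err (fun p _ => chkP_ok dc_ok p) (BT.All.triv _) pcPb1_001001))
  (BT.All.of_err (fun p _ => chkP_ok dc_ok p) (BT.All.triv _) pcPb1_00101))
  (BT.All.nd (BT.All.of_err (fun p _ => chkP_ok dc_ok p) (BT.All.triv _) pcPb1_00110)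
  (BT.All.of_err (fun p _ => chkP_ok dc_ok p) (BT.All.triv _) pcPb1_00111))))
  (BT.All.nd (BT.All.nd (BT.All.nd (BT.All.nd (BT.All.of_err (fun p _ => chkP_ok dc_ok p) (BT.All.triv _) pcPb1_010000)
  (BT.All.of_err (fun p _ => chkP_ok dc_ok p) (BT.All.triv _) pcPb1_010001))
  (BT.All.of_err (fun p _ => chkP_ok dc_ok p) (BT.All.triv _) pcPb1_01001))
  (BT.All.nd (BT.All.of_err (fun p _ => chkP_ok dc_ok p) (BT.All.triv _) pcPb1_01010)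
  (BT.All.nd (BT.All.of_err (fun p _ => chkP_ok dc_ok p) (BT.All.triv _) pcPb1_010110)
  (BT.All.of_err (fun p _ => chkP_ok dc_ok p) (BT.All.triv _) pcPb1_010111))))
  (BT.All.nd (BT.All.nd (BT.All.nd (BT.All.of_err (fun p _ => chkP_ok dc_ok p) (BT.All.triv _) pcPb1_011000)
  (BT.All.of_err (fun p _ => chkP_ok dc_ok p) (BT.All.triv _) pcPb1_011001))
  (BT.All.of_err (fun p _ => chkP_ok dc_ok p) (BT.All.triv _) pcPb1_01101))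
  (BT.All.nd (BT.All.of_err (fun p _ => chkP_ok dc_ok p) (BT.All.triv _) pcPb1_01110)
  (BT.All.of_err (fun p _ => chkP_ok dc_ok p) (BT.All.triv _) pcPb1_01111)))))
  (BT.All.nd (BT.All.nd (BT.All.nd (BT.All.nd (BT.All.of_err (fun p _ => chkP_ok dc_ok p) (BT.All.triv _) pcPb1_10000)
  (BT.All.of_err (fun p _ => chkP_ok dc_ok p) (BT.All.triv _) pcPb1_10001))
  (BT.All.nd (BT.All.of_err (fun p _ => chkP_ok dc_ok p) (BT.All.triv _) pcPb1_10010)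
  (BT.All.of_err (fun p _ => chkP_ok dc_ok p) (BT.All.triv _) pcPb1_10011)))
  (BT.All.nd (BT.All.nd (BT.All.of_err (fun p _ => chkP_ok dc_ok p) (BT.All.triv _) pcPb1_10100)
  (BT.All.of_err (fun p _ => chkP_ok dc_ok p) (BT.All.triv _) pcPb1_10101))
  (BT.All.nd (BT.All.of_err (fun p _ => chkP_ok dc_ok p) (BT.All.triv _) pcPb1_10110)
  (BT.All.of_err (fun p _ => chkP_ok dc_ok p) (BT.All.triv _) pcPb1_10111))))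
  (BT.All.nd (BT.All.nd (BT.All.nd (BT.All.nd (BT.All.of_err (fun p _ => chkP_ok dc_ok p) (BT.All.triv _) pcPb1_110000)
  (BT.All.of_err (fun p _ => chkP_ok dc_ok p) (BT.All.triv _) pcPb1_110001))
  (BT.All.of_err (fun p _ => chkP_ok dc_ok p) (BT.All.triv _) pcPb1_11001))
  (BT.All.nd (BT.All.of_err (fun p _ => chkP_ok dc_ok p) (BT.All.triv _) pcPb1_11010)
  (BT.All.of_err (fun p _ => chkP_ok dc_ok p) (BT.All.triv _) pcPb1_11011)))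
  (BT.All.nd (BT.All.nd (BT.All.of_err (fun p _ => chkP_ok dc_ok p) (BT.All.triv _) pcPb1_11100)
  (BT.All.of_err (fun p _ => chkP_ok dc_ok p) (BT.All.triv _) pcPb1_11101))
  (BT.All.nd (BT.All.of_err (fun p _ => chkP_ok dc_ok p) (BT.All.triv _) pcPb1_11110)
  (BT.All.of_err (fun p _ => chkP_ok dc_ok p) (BT.All.triv _) pcPb1_11111))))))

theorem gsb1 : Sb1.All (SymOk [62] [43, 20, 33, 0]) :=
  BT.All.of_err fixs_ok Sb1_b (by decide +kernel)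

theorem aqb1 : AQ 1 [62] [43, 20, 33, 0] 3 obb1 :=
  (AQ.cons (lp_ok (L2_ok gsb1 gpb1) icob1_0_0 (lp_ok (L2_ok gsb1 gpb1) icob1_0_1 (lp_ok (L2_ok gsb1 gpb1) icob1_0_2 (lp_ok (L2_ok gsb1 gpb1) icob1_0_3 (lp_ok (L2_ok gsb1 gpb1) icob1_0_4 (lp_ok (L2_ok gsb1 gpb1) icob1_0_5 (lp_ok (L2_ok gsb1 gpb1) icob1_0_6 (lp_ok (L2_ok gsb1 gpb1) icob1_0_7 (lp_ok (L2_ok gsb1 gpb1) icob1_0_8 (lp_ok (L2_ok gsb1 gpb1) icob1_0_9 Q.zero))))))))))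
  (AQ.cons (lp_ok (L2_ok gsb1 gpb1) icob1_1_0 (lp_ok (L2_ok gsb1 gpb1) icob1_1_1 (lp_ok (L2_ok gsb1 gpb1) icob1_1_2 (lp_ok (L2_ok gsb1 gpb1) icob1_1_3 (lp_ok (L2_ok gsb1 gpb1) icob1_1_4 (lp_ok (L2_ok gsb1 gpb1) icob1_1_5 (lp_ok (L2_ok gsb1 gpb1) icob1_1_6 (lp_ok (L2_ok gsb1 gpb1) icob1_1_7 (lp_ok (L2_ok gsb1 gpb1) icob1_1_8 Q.zero)))))))))
  (AQ.cons (lp_ok (L2_ok gsb1 gpb1) icob1_2_0 (lp_ok (L2_ok gsb1 gpb1) icob1_2_1 (lp_ok (L2_ok gsb1 gpb1) icob1_2_2 (lp_ok (L2_ok gsb1 gpb1) icob1_2_3 (lp_ok (L2_ok gsb1 gpb1) icob1_2_4 (lp_ok (L2_ok gsb1 gpb1) icob1_2_5 (lp_ok (L2_ok gsb1 gpb1) icob1_2_6 Q.zero)))))))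
  (AQ.cons (lp_ok (L2_ok gsb1 gpb1) icob1_3_0 (lp_ok (L2_ok gsb1 gpb1) icob1_3_1 (lp_ok (L2_ok gsb1 gpb1) icob1_3_2 (lp_ok (L2_ok gsb1 gpb1) icob1_3_3 (lp_ok (L2_ok gsb1 gpb1) icob1_3_4 (lp_ok (L2_ok gsb1 gpb1) icob1_3_5 Q.zero))))))
  (AQ.cons (lp_ok (L2_ok gsb1 gpb1) icob1_4_0 (lp_ok (L2_ok gsb1 gpb1) icob1_4_1 (lp_ok (L2_ok gsb1 gpb1) icob1_4_2 (lp_ok (L2_ok gsb1 gpb1) icob1_4_3 (lp_ok (L2_ok gsb1 gpb1) icob1_4_4 Q.zero)))))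
  (AQ.cons (lp_ok (L2_ok gsb1 gpb1) icob1_5_0 (lp_ok (L2_ok gsb1 gpb1) icob1_5_1 (lp_ok (L2_ok gsb1 gpb1) icob1_5_2 (lp_ok (L2_ok gsb1 gpb1) icob1_5_3 Q.zero))))
  (AQ.cons (lp_ok (L2_ok gsb1 gpb1) icob1_6_0 (lp_ok (L2_ok gsb1 gpb1) icob1_6_1 (lp_ok (L2_ok gsb1 gpb1) icob1_6_2 Q.zero)))
  (AQ.cons (lp_ok (L2_ok gsb1 gpb1) icob1_7_0 (lp_ok (L2_ok gsb1 gpb1) icob1_7_1 Q.zero))
  (AQ.cons (lp_ok (L2_ok gsb1 gpb1) icob1_8_0 (lp_ok (L2_ok gsb1 gpb1) icob1_8_1 Q.zero))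
  (AQ.cons (lp_ok (L2_ok gsb1 gpb1) icob1_9_0 Q.zero)
  (AQ.cons (lp_ok (L2_ok gsb1 gpb1) icob1_10_0 Q.zero)
  (AQ.cons (lp_ok (L2_ok gsb1 gpb1) icob1_11_0 Q.zero)
  (AQ.cons (lp_ok (L2_ok gsb1 gpb1) icob1_12_0 Q.zero)
  (AQ.cons (lp_ok (L2_ok gsb1 gpb1) icob1_13_0 Q.zero)
  (AQ.cons (lp_ok (L2_ok gsb1 gpb1) icob1_14_0 Q.zero)
  (AQ.cons (lp_ok (L2_ok gsb1 gpb1) icob1_15_0 Q.zero)
  (AQ.cons (lp_ok (L2_ok gsb1 gpb1) icob1_16_0 Q.zero)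
  (AQ.cons (lp_ok (L2_ok gsb1 gpb1) icob1_17_0 Q.zero)
  (AQ.cons (lp_ok (L2_ok gsb1 gpb1) icob1_18_0 Q.zero)
  (AQ.cons (lp_ok (L2_ok gsb1 gpb1) icob1_19_0 Q.zero)
  (AQ.cons (lp_ok (L2_ok gsb1 gpb1) icob1_20_0 Q.zero)
  (AQ.cons (lp_ok (L2_ok gsb1 gpb1) icob1_21_0 Q.zero)
  AQ.nil))))))))))))))))))))))

theorem rb1 : RR 1 [62] [43, 20, 33, 0] 4 :=
  (obs_ok gsb1 aqb1 (A := 0x1fffffffffffffffbffff7fdffeffffe) (by decide +kernel)).rr (by decide +kernel)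

theorem gpb2 : Pb2_.All (Good 0 [43, 62] [81, 20, 33, 0]) :=
  (BT.All.nd (BT.All.nd (BT.All.nd (BT.All.nd (BT.All.of_err (fun p _ => chkP_ok dc_ok p) (BT.All.triv _) pcPb2_0000)
  (BT.All.of_err (fun p _ => chkP_ok dc_ok p) (BT.All.triv _) pcPb2_0001))
  (BT.All.nd (BT.All.of_err (fun p _ => chkP_ok dc_ok p) (BT.All.triv _) pcPb2_0010)
  (BT.All.of_err (fun p _ => chkP_ok dc_ok p) (BT.All.triv _) pcPb2_0011)))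
  (BT.All.nd (BT.All.nd (BT.All.of_err (fun p _ => chkP_ok dc_ok p) (BT.All.triv _) pcPb2_0100)
  (BT.All.of_err (fun p _ => chkP_ok dc_ok p) (BT.All.triv _) pcPb2_0101))
  (BT.All.nd (BT.All.of_err (fun p _ => chkP_ok dc_ok p) (BT.All.triv _) pcPb2_0110)
  (BT.All.of_err (fun p _ => chkP_ok dc_ok p) (BT.All.triv _) pcPb2_0111))))
  (BT.All.nd (BT.All.nd (BT.All.nd (BT.All.of_err (fun p _ => chkP_ok dc_ok p) (BT.All.triv _) pcPb2_1000)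
  (BT.All.of_err (fun p _ => chkP_ok dc_ok p) (BT.All.triv _) pcPb2_1001))
  (BT.All.nd (BT.All.of_err (fun p _ => chkP_ok dc_ok p) (BT.All.triv _) pcPb2_1010)
  (BT.All.of_err (fun p _ => chkP_ok dc_ok p) (BT.All.triv _) pcPb2_1011)))
  (BT.All.nd (BT.All.nd (BT.All.of_err (fun p _ => chkP_ok dc_ok p) (BT.All.triv _) pcPb2_1100)
  (BT.All.of_err (fun p _ => chkP_ok dc_ok p) (BT.All.triv _) pcPb2_1101))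
  (BT.All.nd (BT.All.of_err (fun p _ => chkP_ok dc_ok p) (BT.All.triv _) pcPb2_1110)
  (BT.All.of_err (fun p _ => chkP_ok dc_ok p) (BT.All.triv _) pcPb2_1111)))))

theorem gsb2 : Sb2.All (SymOk [43, 62] [81, 20, 33, 0]) :=
  BT.All.of_err fixs_ok Sb2_b (by decide +kernel)

theorem aqb2 : AQ 0 [43, 62] [81, 20, 33, 0] 2 obb2 :=
  (AQ.cons (L2_ok gsb2 gpb2 _ _ _ icob2_0)
  (AQ.cons (L2_ok gsb2 gpb2 _ _ _ icob2_1)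
  (AQ.cons (L2_ok gsb2 gpb2 _ _ _ icob2_2)
  (AQ.cons (L2_ok gsb2 gpb2 _ _ _ icob2_3)
  (AQ.cons (L2_ok gsb2 gpb2 _ _ _ icob2_4)
  (AQ.cons (L2_ok gsb2 gpb2 _ _ _ icob2_5)
  (AQ.cons (L2_ok gsb2 gpb2 _ _ _ icob2_6)
  (AQ.cons (L2_ok gsb2 gpb2 _ _ _ icob2_7)
  (AQ.cons (L2_ok gsb2 gpb2 _ _ _ icob2_8)
  (AQ.cons (L2_ok gsb2 gpb2 _ _ _ icob2_9)
  (AQ.cons (L2_ok gsb2 gpb2 _ _ _ icob2_10)
  (AQ.cons (L2_ok gsb2 gpb2 _ _ _ icob2_11)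
  (AQ.cons (L2_ok gsb2 gpb2 _ _ _ icob2_12)
  (AQ.cons (L2_ok gsb2 gpb2 _ _ _ icob2_13)
  (AQ.cons (L2_ok gsb2 gpb2 _ _ _ icob2_14)
  (AQ.cons (L2_ok gsb2 gpb2 _ _ _ icob2_15)
  (AQ.cons (L2_ok gsb2 gpb2 _ _ _ icob2_16)
  (AQ.cons (L2_ok gsb2 gpb2 _ _ _ icob2_17)
  (AQ.cons (L2_ok gsb2 gpb2 _ _ _ icob2_18)
  (AQ.cons (L2_ok gsb2 gpb2 _ _ _ icob2_19)
  (AQ.cons (L2_ok gsb2 gpb2 _ _ _ icob2_20)
  (AQ.cons (L2_ok gsb2 gpb2 _ _ _ icob2_21)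
  (AQ.cons (L2_ok gsb2 gpb2 _ _ _ icob2_22)
  (AQ.cons (L2_ok gsb2 gpb2 _ _ _ icob2_23)
  (AQ.cons (L2_ok gsb2 gpb2 _ _ _ icob2_24)
  (AQ.cons (L2_ok gsb2 gpb2 _ _ _ icob2_25)
  (AQ.cons (L2_ok gsb2 gpb2 _ _ _ icob2_26)
  (AQ.cons (L2_ok gsb2 gpb2 _ _ _ icob2_27)
  (AQ.cons (L2_ok gsb2 gpb2 _ _ _ icob2_28)
  (AQ.cons (L2_ok gsb2 gpb2 _ _ _ icob2_29)
  (AQ.cons (L2_ok gsb2 gpb2 _ _ _ icob2_30)
  (AQ.cons (L2_ok gsb2 gpb2 _ _ _ icob2_31)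
  (AQ.cons (L2_ok gsb2 gpb2 _ _ _ icob2_32)
  (AQ.cons (L2_ok gsb2 gpb2 _ _ _ icob2_33)
  (AQ.cons (L2_ok gsb2 gpb2 _ _ _ icob2_34)
  (AQ.cons (L2_ok gsb2 gpb2 _ _ _ icob2_35)
  (AQ.cons (L2_ok gsb2 gpb2 _ _ _ icob2_36)
  (AQ.cons (L2_ok gsb2 gpb2 _ _ _ icob2_37)
  (AQ.cons (L2_ok gsb2 gpb2 _ _ _ icob2_38)
  (AQ.cons (L2_ok gsb2 gpb2 _ _ _ icob2_39)
  (AQ.cons (L2_ok gsb2 gpb2 _ _ _ icob2_40)
  (AQ.cons (L2_ok gsb2 gpb2 _ _ _ icob2_41)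
  (AQ.cons (L2_ok gsb2 gpb2 _ _ _ icob2_42)
  (AQ.cons (L2_ok gsb2 gpb2 _ _ _ icob2_43)
  (AQ.cons (L2_ok gsb2 gpb2 _ _ _ icob2_44)
  (AQ.cons (L2_ok gsb2 gpb2 _ _ _ icob2_45)
  (AQ.cons (L2_ok gsb2 gpb2 _ _ _ icob2_46)
  (AQ.cons (L2_ok gsb2 gpb2 _ _ _ icob2_47)
  (AQ.cons (L2_ok gsb2 gpb2 _ _ _ icob2_48)
  (AQ.cons (L2_ok gsb2 gpb2 _ _ _ icob2_49)
  (AQ.cons (L2_ok gsb2 gpb2 _ _ _ icob2_50)
  (AQ.cons (L2_ok gsb2 gpb2 _ _ _ icob2_51)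
  (AQ.cons (L2_ok gsb2 gpb2 _ _ _ icob2_52)
  (AQ.cons (L2_ok gsb2 gpb2 _ _ _ icob2_53)
  (AQ.cons (L2_ok gsb2 gpb2 _ _ _ icob2_54)
  (AQ.cons (L2_ok gsb2 gpb2 _ _ _ icob2_55)
  (AQ.cons (L2_ok gsb2 gpb2 _ _ _ icob2_56)
  (AQ.cons (L2_ok gsb2 gpb2 _ _ _ icob2_57)
  (AQ.cons (L2_ok gsb2 gpb2 _ _ _ icob2_58)
  (AQ.cons (L2_ok gsb2 gpb2 _ _ _ icob2_59)
  (AQ.cons (L2_ok gsb2 gpb2 _ _ _ icob2_60)
  (AQ.cons (L2_ok gsb2 gpb2 _ _ _ icob2_61)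
  (AQ.cons (L2_ok gsb2 gpb2 _ _ _ icob2_62)
  (AQ.cons (L2_ok gsb2 gpb2 _ _ _ icob2_63)
  (AQ.cons (L2_ok gsb2 gpb2 _ _ _ icob2_64)
  AQ.nil)))))))))))))))))))))))))))))))))))))))))))))))))))))))))))))))))

theorem rb2 : RR 0 [43, 62] [81, 20, 33, 0] 3 :=
  (obs_ok gsb2 aqb2 (A := 0x1ffffffffffdffffbffff7fdffeffffe) (by decide +kernel)).rr (by decide +kernel)

theorem gpb3 : Pb3_.All (Good 0 [81, 43, 62] [24, 20, 33, 0]) :=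
  (BT.All.nd (BT.All.of_err (fun p _ => chkP_ok dc_ok p) (BT.All.triv _) pcPb3_0)
  (BT.All.of_err (fun p _ => chkP_ok dc_ok p) (BT.All.triv _) pcPb3_1))

theorem gsb3 : Sb3.All (SymOk [81, 43, 62] [24, 20, 33, 0]) :=
  BT.All.of_err fixs_ok Sb3_b (by decide +kernel)

theorem rb3 : RR 0 [81, 43, 62] [24, 20, 33, 0] 2 :=
  (L2_ok gsb3 gpb3 _ _ _ icb3).rr (by decide +kernel)

theorem gpn1 : Pn1_.All (Good 0 [] [124, 0, 62]) :=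
  (BT.All.nd (BT.All.nd (BT.All.nd (BT.All.nd (BT.All.of_err (fun p _ => chkP_ok dc_ok p) (BT.All.triv _) pcPn1_0000)
  (BT.All.of_err (fun p _ => chkP_ok dc_ok p) (BT.All.triv _) pcPn1_0001))
  (BT.All.nd (BT.All.of_err (fun p _ => chkP_ok dc_ok p) (BT.All.triv _) pcPn1_0010)
  (BT.All.of_err (fun p _ => chkP_ok dc_ok p) (BT.All.triv _) pcPn1_0011)))
  (BT.All.nd (BT.All.nd (BT.All.of_err (fun p _ => chkP_ok dc_ok p) (BT.All.triv _) pcPn1_0100)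
  (BT.All.of_err (fun p _ => chkP_ok dc_ok p) (BT.All.triv _) pcPn1_0101))
  (BT.All.nd (BT.All.of_err (fun p _ => chkP_ok dc_ok p) (BT.All.triv _) pcPn1_0110)
  (BT.All.of_err (fun p _ => chkP_ok dc_ok p) (BT.All.triv _) pcPn1_0111))))
  (BT.All.nd (BT.All.nd (BT.All.nd (BT.All.of_err (fun p _ => chkP_ok dc_ok p) (BT.All.triv _) pcPn1_1000)
  (BT.All.of_err (fun p _ => chkP_ok dc_ok p) (BT.All.triv _) pcPn1_1001))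
  (BT.All.nd (BT.All.of_err (fun p _ => chkP_ok dc_ok p) (BT.All.triv _) pcPn1_1010)
  (BT.All.of_err (fun p _ => chkP_ok dc_ok p) (BT.All.triv _) pcPn1_1011)))
  (BT.All.nd (BT.All.nd (BT.All.of_err (fun p _ => chkP_ok dc_ok p) (BT.All.triv _) pcPn1_1100)
  (BT.All.of_err (fun p _ => chkP_ok dc_ok p) (BT.All.triv _) pcPn1_1101))
  (BT.All.nd (BT.All.of_err (fun p _ => chkP_ok dc_ok p) (BT.All.triv _) pcPn1_1110)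
  (BT.All.of_err (fun p _ => chkP_ok dc_ok p) (BT.All.triv _) pcPn1_1111)))))

theorem gsn1 : Sn1.All (SymOk [] [124, 0, 62]) :=
  BT.All.of_err fixs_ok Sn1_b (by decide +kernel)

theorem aqn1 : AQ 0 [] [124, 0, 62] 3 obn1 :=
  (AQ.cons (lp_ok (L2_ok gsn1 gpn1) icon1_0_0 (lp_ok (L2_ok gsn1 gpn1) icon1_0_1 (lp_ok (L2_ok gsn1 gpn1) icon1_0_2 (lp_ok (L2_ok gsn1 gpn1) icon1_0_3 (lp_ok (L2_ok gsn1 gpn1) icon1_0_4 (lp_ok (L2_ok gsn1 gpn1) icon1_0_5 (lp_ok (L2_ok gsn1 gpn1) icon1_0_6 (lp_ok (L2_ok gsn1 gpn1) icon1_0_7 (lp_ok (L2_ok gsn1 gpn1) icon1_0_8 (lp_ok (L2_ok gsn1 gpn1) icon1_0_9 (lp_ok (L2_ok gsn1 gpn1) icon1_0_10 Q.zero)))))))))))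
  (AQ.cons (lp_ok (L2_ok gsn1 gpn1) icon1_1_0 (lp_ok (L2_ok gsn1 gpn1) icon1_1_1 (lp_ok (L2_ok gsn1 gpn1) icon1_1_2 (lp_ok (L2_ok gsn1 gpn1) icon1_1_3 (lp_ok (L2_ok gsn1 gpn1) icon1_1_4 (lp_ok (L2_ok gsn1 gpn1) icon1_1_5 (lp_ok (L2_ok gsn1 gpn1) icon1_1_6 Q.zero)))))))
  (AQ.cons (lp_ok (L2_ok gsn1 gpn1) icon1_2_0 (lp_ok (L2_ok gsn1 gpn1) icon1_2_1 (lp_ok (L2_ok gsn1 gpn1) icon1_2_2 (lp_ok (L2_ok gsn1 gpn1) icon1_2_3 (lp_ok (L2_ok gsn1 gpn1) icon1_2_4 Q.zero)))))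
  (AQ.cons (lp_ok (L2_ok gsn1 gpn1) icon1_3_0 (lp_ok (L2_ok gsn1 gpn1) icon1_3_1 (lp_ok (L2_ok gsn1 gpn1) icon1_3_2 (lp_ok (L2_ok gsn1 gpn1) icon1_3_3 Q.zero))))
  (AQ.cons (lp_ok (L2_ok gsn1 gpn1) icon1_4_0 (lp_ok (L2_ok gsn1 gpn1) icon1_4_1 (lp_ok (L2_ok gsn1 gpn1) icon1_4_2 Q.zero)))
  (AQ.cons (lp_ok (L2_ok gsn1 gpn1) icon1_5_0 (lp_ok (L2_ok gsn1 gpn1) icon1_5_1 Q.zero))
  (AQ.cons (lp_ok (L2_ok gsn1 gpn1) icon1_6_0 (lp_ok (L2_ok gsn1 gpn1) icon1_6_1 Q.zero))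
  (AQ.cons (lp_ok (L2_ok gsn1 gpn1) icon1_7_0 Q.zero)
  (AQ.cons (lp_ok (L2_ok gsn1 gpn1) icon1_8_0 Q.zero)
  (AQ.cons (lp_ok (L2_ok gsn1 gpn1) icon1_9_0 Q.zero)
  (AQ.cons (lp_ok (L2_ok gsn1 gpn1) icon1_10_0 Q.zero)
  (AQ.cons (lp_ok (L2_ok gsn1 gpn1) icon1_11_0 Q.zero)
  (AQ.cons (lp_ok (L2_ok gsn1 gpn1) icon1_12_0 Q.zero)
  (AQ.cons (lp_ok (L2_ok gsn1 gpn1) icon1_13_0 Q.zero)
  AQ.nil))))))))))))))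

theorem rn1 : RR 0 [] [124, 0, 62] 4 :=
  (obs_ok gsn1 aqn1 (A := 0xfffffffffffffffbffffffffffffffe) (by decide +kernel)).rr (by decide +kernel)

theorem gpn2 : Pn2_.All (Good 0 [124] [31, 0, 62]) :=
  (BT.All.nd (BT.All.nd (BT.All.nd (BT.All.of_err (fun p _ => chkP_ok dc_ok p) (BT.All.triv _) pcPn2_000)
  (BT.All.of_err (fun p _ => chkP_ok dc_ok p) (BT.All.triv _) pcPn2_001))
  (BT.All.nd (BT.All.of_err (fun p _ => chkP_ok dc_ok p) (BT.All.triv _) pcPn2_010)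
  (BT.All.of_err (fun p _ => chkP_ok dc_ok p) (BT.All.triv _) pcPn2_011)))
  (BT.All.nd (BT.All.nd (BT.All.of_err (fun p _ => chkP_ok dc_ok p) (BT.All.triv _) pcPn2_100)
  (BT.All.of_err (fun p _ => chkP_ok dc_ok p) (BT.All.triv _) pcPn2_101))
  (BT.All.nd (BT.All.of_err (fun p _ => chkP_ok dc_ok p) (BT.All.triv _) pcPn2_110)
  (BT.All.of_err (fun p _ => chkP_ok dc_ok p) (BT.All.triv _) pcPn2_111))))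

theorem gsn2 : Sn2.All (SymOk [124] [31, 0, 62]) :=
  BT.All.of_err fixs_ok Sn2_b (by decide +kernel)

theorem aqn2 : AQ 0 [124] [31, 0, 62] 2 obn2 :=
  (AQ.cons (L2_ok gsn2 gpn2 _ _ _ icon2_0)
  (AQ.cons (L2_ok gsn2 gpn2 _ _ _ icon2_1)
  (AQ.cons (L2_ok gsn2 gpn2 _ _ _ icon2_2)
  (AQ.cons (L2_ok gsn2 gpn2 _ _ _ icon2_3)
  (AQ.cons (L2_ok gsn2 gpn2 _ _ _ icon2_4)
  (AQ.cons (L2_ok gsn2 gpn2 _ _ _ icon2_5)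
  (AQ.cons (L2_ok gsn2 gpn2 _ _ _ icon2_6)
  (AQ.cons (L2_ok gsn2 gpn2 _ _ _ icon2_7)
  (AQ.cons (L2_ok gsn2 gpn2 _ _ _ icon2_8)
  (AQ.cons (L2_ok gsn2 gpn2 _ _ _ icon2_9)
  (AQ.cons (L2_ok gsn2 gpn2 _ _ _ icon2_10)
  (AQ.cons (L2_ok gsn2 gpn2 _ _ _ icon2_11)
  (AQ.cons (L2_ok gsn2 gpn2 _ _ _ icon2_12)
  (AQ.cons (L2_ok gsn2 gpn2 _ _ _ icon2_13)
  (AQ.cons (L2_ok gsn2 gpn2 _ _ _ icon2_14)
  (AQ.cons (L2_ok gsn2 gpn2 _ _ _ icon2_15)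
  (AQ.cons (L2_ok gsn2 gpn2 _ _ _ icon2_16)
  (AQ.cons (L2_ok gsn2 gpn2 _ _ _ icon2_17)
  (AQ.cons (L2_ok gsn2 gpn2 _ _ _ icon2_18)
  (AQ.cons (L2_ok gsn2 gpn2 _ _ _ icon2_19)
  (AQ.cons (L2_ok gsn2 gpn2 _ _ _ icon2_20)
  (AQ.cons (L2_ok gsn2 gpn2 _ _ _ icon2_21)
  (AQ.cons (L2_ok gsn2 gpn2 _ _ _ icon2_22)
  (AQ.cons (L2_ok gsn2 gpn2 _ _ _ icon2_23)
  (AQ.cons (L2_ok gsn2 gpn2 _ _ _ icon2_24)
  (AQ.cons (L2_ok gsn2 gpn2 _ _ _ icon2_25)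
  (AQ.cons (L2_ok gsn2 gpn2 _ _ _ icon2_26)
  (AQ.cons (L2_ok gsn2 gpn2 _ _ _ icon2_27)
  (AQ.cons (L2_ok gsn2 gpn2 _ _ _ icon2_28)
  (AQ.cons (L2_ok gsn2 gpn2 _ _ _ icon2_29)
  (AQ.cons (L2_ok gsn2 gpn2 _ _ _ icon2_30)
  AQ.nil)))))))))))))))))))))))))))))))

theorem rn2 : RR 0 [124] [31, 0, 62] 3 :=
  (obs_ok gsn2 aqn2 (A := 0xfffffffffffffffbfffffff7ffffffe) (by decide +kernel)).rr (by decide +kernel)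

theorem gpn3 : Pn3_.All (Good 0 [31, 124] [33, 0, 62]) :=
  (BT.All.nd (BT.All.of_err (fun p _ => chkP_ok dc_ok p) (BT.All.triv _) pcPn3_0)
  (BT.All.of_err (fun p _ => chkP_ok dc_ok p) (BT.All.triv _) pcPn3_1))

theorem gsn3 : Sn3.All (SymOk [31, 124] [33, 0, 62]) :=
  BT.All.of_err fixs_ok Sn3_b (by decide +kernel)

theorem rn3 : RR 0 [31, 124] [33, 0, 62] 2 :=
  (L2_ok gsn3 gpn3 _ _ _ icn3).rr (by decide +kernel)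

noncomputable def xes : List XE := [xe0, xe1, xe2, xe3, xe4, xe5, xe6, xe7, xe8, xe9, xe10, xe11, xe12, xe13, xe14, xe15, xe16, xe17, xe18, xe19, xe20, xe21, xe22, xe23, xe24, xe25, xe26, xe27, xe28, xe29, xe30, xe31, xe32, xe33, xe34, xe35]

theorem xes_ok : ∀ z ∈ xes, WB {c | c ≠ z.x ∧ inc z.l c} {c | c ∈ [20, 33, 0]} :=
  (List.forall_mem_cons.2 ⟨chkX_ok dc_ok xc0,
  (List.forall_mem_cons.2 ⟨chkX_ok dc_ok xc1,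
  (List.forall_mem_cons.2 ⟨chkX_ok dc_ok xc2,
  (List.forall_mem_cons.2 ⟨chkX_ok dc_ok xc3,
  (List.forall_mem_cons.2 ⟨chkX_ok dc_ok xc4,
  (List.forall_mem_cons.2 ⟨chkX_ok dc_ok xc5,
  (List.forall_mem_cons.2 ⟨chkX_ok dc_ok xc6,
  (List.forall_mem_cons.2 ⟨chkX_ok dc_ok xc7,
  (List.forall_mem_cons.2 ⟨chkX_ok dc_ok xc8,
  (List.forall_mem_cons.2 ⟨chkX_ok dc_ok xc9,
  (List.forall_mem_cons.2 ⟨chkX_ok dc_ok xc10,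
  (List.forall_mem_cons.2 ⟨chkX_ok dc_ok xc11,
  (List.forall_mem_cons.2 ⟨chkX_ok dc_ok xc12,
  (List.forall_mem_cons.2 ⟨chkX_ok dc_ok xc13,
  (List.forall_mem_cons.2 ⟨chkX_ok dc_ok xc14,
  (List.forall_mem_cons.2 ⟨chkX_ok dc_ok xc15,
  (List.forall_mem_cons.2 ⟨chkX_ok dc_ok xc16,
  (List.forall_mem_cons.2 ⟨chkX_ok dc_ok xc17,
  (List.forall_mem_cons.2 ⟨chkX_ok dc_ok xc18,
  (List.forall_mem_cons.2 ⟨chkX_ok dc_ok xc19,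
  (List.forall_mem_cons.2 ⟨chkX_ok dc_ok xc20,
  (List.forall_mem_cons.2 ⟨chkX_ok dc_ok xc21,
  (List.forall_mem_cons.2 ⟨chkX_ok dc_ok xc22,
  (List.forall_mem_cons.2 ⟨chkX_ok dc_ok xc23,
  (List.forall_mem_cons.2 ⟨chkX_ok dc_ok xc24,
  (List.forall_mem_cons.2 ⟨chkX_ok dc_ok xc25,
  (List.forall_mem_cons.2 ⟨chkX_ok dc_ok xc26,
  (List.forall_mem_cons.2 ⟨chkX_ok dc_ok xc27,
  (List.forall_mem_cons.2 ⟨chkX_ok dc_ok xc28,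
  (List.forall_mem_cons.2 ⟨chkX_ok dc_ok xc29,
  (List.forall_mem_cons.2 ⟨chkX_ok dc_ok xc30,
  (List.forall_mem_cons.2 ⟨chkX_ok dc_ok xc31,
  (List.forall_mem_cons.2 ⟨chkX_ok dc_ok xc32,
  (List.forall_mem_cons.2 ⟨chkX_ok dc_ok xc33,
  (List.forall_mem_cons.2 ⟨chkX_ok dc_ok xc34,
  (List.forall_mem_cons.2 ⟨chkX_ok dc_ok xc35,
  (by simp)⟩)⟩)⟩)⟩)⟩)⟩)⟩)⟩)⟩)⟩)⟩)⟩)⟩)⟩)⟩)⟩)⟩)⟩)⟩)⟩)⟩)⟩)⟩)⟩)⟩)⟩)⟩)⟩)⟩)⟩)⟩)⟩)⟩)⟩)⟩)⟩)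

set_option synthInstance.maxSize 2000 in
theorem xes_all : ∀ l, l < 109 → (ln l).testBit 62 = true →
    (∀ c ∈ [43, 20, 33, 0], ¬ (ln l).testBit c = true) → ∀ x, x < 125 → x ∉ [62] →
      (ln l).testBit x = true → ∃ z ∈ xes, z.l = l ∧ z.x = x := by decide +kernel

theorem centre : RR 0 [62] [] 0 := by
  have h1 : RR 0 [81, 43, 62] [20, 33, 0] 1 :=
    rb3.split (RR.base (wbN_ok dc_ok cb4)) (by decide) (by simp)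
  have h2 : RR 0 [43, 62] [20, 33, 0] 2 := rb2.split h1 (by decide) (by simp)
  have h3 : RR 0 [62] [20, 33, 0] 3 := rb1.split h2 (by decide) fun _ l x a b c d e => by
    obtain ⟨z, z1, rfl, rfl⟩ := xes_all l a (e 62 (by simp)) c x (inc_lt d) b d
    exact xes_ok z z1
  have h4 : RR 0 [62] [33, 0] 2 := h3.avoid [y0, y8, y4] (List.forall_mem_cons.2 ⟨by0, (List.forall_mem_cons.2 ⟨by8, (List.forall_mem_cons.2 ⟨by4, (by simp)⟩)⟩)⟩) (by decide +kernel)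
  have h5 : RR 0 [62] [0] 1 := h4.avoid [y0, y11] (List.forall_mem_cons.2 ⟨by0, (List.forall_mem_cons.2 ⟨by11, (by simp)⟩)⟩) (by decide +kernel)
  exact h5.start (by decide)

theorem other : RR 0 [] [62] 2 := by
  have h1 : RR 0 [31, 124] [0, 62] 1 :=
    rn3.split (RR.base (wbN_ok dc_ok cn4)) (by decide) (by simp)
  have h2 : RR 0 [124] [0, 62] 2 := rn2.split h1 (by decide) (by simp)
  have h3 : RR 0 [] [0, 62] 3 := rn1.split h2 (by decide) (by simp)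
  exact h3.avoid [y0, y31, y2] (List.forall_mem_cons.2 ⟨by0, (List.forall_mem_cons.2 ⟨by31, (List.forall_mem_cons.2 ⟨by2, (by simp)⟩)⟩)⟩) (by decide +kernel)

theorem breaker : WM ∅ ∅ := (other.split centre (by decide) (by simp)).wm

end Pool.Agent.Lib.MP_e28b35_co
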